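import Mathlib

/-!
# Osgood: complex differentiable functions of several variables are analytic

The Cauchy formula on the polydisc, and the analyticity of complex differentiable functions on
an open set of a finite-dimensional complex space, with values in a complex Banach space.
-/

open MeasureTheory Set Metric Filter Topology Function
open scoped Real

namespace Pool.Agent.KO.C

/-- Continuity on the torus gives integrability. -/
theorem torusIntegrable_of_continuousOn {F : Type*} [NormedAddCommGroup F] {n : ℕ}
    {f : (Fin n → ℂ) → F} {c : Fin n → ℂ} {r : ℝ} (hr : 0 < r)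
    (hf : ContinuousOn f {ζ | ∀ i, ζ i ∈ sphere (c i) r}) :
    TorusIntegrable f c (fun _ => r) := by
  have hmap : Continuous (torusMap c (fun _ : Fin n => r)) := by
    unfold torusMap
    fun_prop
  have hm : ∀ θ, torusMap c (fun _ : Fin n => r) θ ∈ {ζ : Fin n → ℂ | ∀ i, ζ i ∈ sphere (c i) r} := by
    intro θ i
    simp [torusMap, abs_of_pos hr]
  have : Continuous (fun θ => f (torusMap c (fun _ => r) θ)) :=
    hf.comp_continuous hmap hm
  exact this.continuousOn.integrableOn_compact isCompact_Icc

/-- The Cauchy formula on the polydisc. -/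
theorem cauchy_torus {F : Type*} [NormedAddCommGroup F] [NormedSpace ℂ F] [CompleteSpace F] :
    ∀ (n : ℕ) (f : (Fin n → ℂ) → F) (U : Set (Fin n → ℂ)) (c z : Fin n → ℂ) (r : ℝ),
      0 < r → DifferentiableOn ℂ f U → IsOpen U → closedBall c r ⊆ U → z ∈ ball c r →
      (∯ ζ in T(c, fun _ => r), (∏ i, (ζ i - z i)⁻¹) • f ζ) =
        ((2 * π * Complex.I : ℂ) ^ n) • f z := by
  intro n
  induction n with
  | zero =>
    intro f U c z r hr hf hU hcU hz
    rw [torusIntegral_dim0]
    simp [Subsingleton.elim c z]
  | succ n ih =>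
    intro f U c z r hr hf hU hcU hz
    have hz' : ∀ i, z i ∈ ball (c i) r := by
      intro i
      rw [mem_ball, dist_pi_lt_iff hr] at hz
      exact hz i
    have hint : TorusIntegrable (fun ζ => (∏ i, (ζ i - z i)⁻¹) • f ζ) c (fun _ => r) := by
      apply torusIntegrable_of_continuousOn hr
      apply ContinuousOn.smul
      · apply continuousOn_finsetProd
        intro i _
        apply ContinuousOn.inv₀
        · fun_prop
        · intro ζ hζ h0
          have h1 := hζ i
          have h2 := hz' i
          rw [mem_sphere] at h1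
          rw [mem_ball] at h2
          rw [sub_eq_zero] at h0
          rw [h0] at h1
          exact (ne_of_lt h2) h1
      · apply hf.continuousOn.mono
        intro ζ hζ
        apply hcU
        rw [mem_closedBall, dist_pi_le_iff hr.le]
        intro i
        exact (mem_sphere.1 (hζ i)).le
    rw [torusIntegral_succ hint]
    have step : ∀ x ∈ sphere (c 0) r,
        (∯ y in T(c ∘ Fin.succ, (fun _ : Fin (n + 1) => r) ∘ Fin.succ),
          (∏ i, ((Fin.cons x y : Fin (n + 1) → ℂ) i - z i)⁻¹) • f (Fin.cons x y)) =
        ((2 * π * Complex.I : ℂ) ^ n) • ((x - z 0)⁻¹ • f (Fin.cons x (Fin.tail z))) := by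
      intro x hx
      have h1 : ∀ y : Fin n → ℂ, (∏ i, ((Fin.cons x y : Fin (n + 1) → ℂ) i - z i)⁻¹) • f (Fin.cons x y)
          = (x - z 0)⁻¹ • ((∏ i, (y i - Fin.tail z i)⁻¹) • f (Fin.cons x y)) := by
        intro y
        rw [Fin.prod_univ_succ, smul_smul]
        simp [Fin.tail]
      simp only [h1]
      rw [torusIntegral_smul]
      have h2 := ih (fun y => f (Fin.cons x y)) {y | Fin.cons x y ∈ U} (c ∘ Fin.succ) (Fin.tail z) r hr
        (by
          intro y hy
          have : DifferentiableAt ℂ f (Fin.cons x y) := hf.differentiableAt (hU.mem_nhds hy)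
          apply DifferentiableAt.differentiableWithinAt
          apply DifferentiableAt.comp y (f := fun y : Fin n → ℂ => (Fin.cons x y : Fin (n + 1) → ℂ)) this
          rw [differentiableAt_pi]
          intro i
          refine Fin.cases ?_ ?_ i
          · simp
          · intro j
            simp only [Fin.cons_succ]
            fun_prop)
        (by
          apply hU.preimage
          rw [continuous_pi_iff]
          intro i
          refine Fin.cases ?_ ?_ i
          · simp only [Fin.cons_zero]
            exact continuous_const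
          · intro j
            simp only [Fin.cons_succ]
            fun_prop)
        (by
          intro y hy
          apply hcU
          rw [mem_closedBall, dist_pi_le_iff hr.le]
          rw [mem_closedBall, dist_pi_le_iff hr.le] at hy
          intro i
          refine Fin.cases ?_ ?_ i
          · simpa using (mem_sphere.1 hx).le
          · intro j
            simpa using hy j)
        (by
          rw [mem_ball, dist_pi_lt_iff hr]
          intro j
          exact hz' j.succ)
      have h3 : ((fun _ : Fin (n + 1) => r) ∘ Fin.succ) = (fun _ : Fin n => r) := rfl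
      rw [h3, h2, smul_comm]
    rw [circleIntegral.integral_congr hr.le step]
    rw [circleIntegral.integral_smul]
    have hd : DifferentiableOn ℂ (fun x : ℂ => f (Fin.cons x (Fin.tail z))) (closedBall (c 0) r) := by
      intro x hx
      have hxU : (Fin.cons x (Fin.tail z) : Fin (n + 1) → ℂ) ∈ U := by
        apply hcU
        rw [mem_closedBall, dist_pi_le_iff hr.le]
        intro i
        refine Fin.cases ?_ ?_ i
        · simpa using hx
        · intro j
          simpa [Fin.tail] using (mem_ball.1 (hz' j.succ)).le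
      have : DifferentiableAt ℂ f (Fin.cons x (Fin.tail z)) := hf.differentiableAt (hU.mem_nhds hxU)
      apply DifferentiableAt.differentiableWithinAt
      apply DifferentiableAt.comp x (f := fun x : ℂ => (Fin.cons x (Fin.tail z) : Fin (n + 1) → ℂ)) this
      rw [differentiableAt_pi]
      intro i
      refine Fin.cases ?_ ?_ i
      · simp only [Fin.cons_zero]
        fun_prop
      · intro j
        simp
    rw [hd.circleIntegral_sub_inv_smul (hz' 0)]
    rw [smul_smul, Fin.cons_self_tail, pow_succ]

/-- The Cauchy integral over the torus is analytic on the polydisc. -/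
theorem torus_analytic {F : Type*} [NormedAddCommGroup F] [NormedSpace ℂ F] [CompleteSpace F]
    {n : ℕ} {f : (Fin n → ℂ) → F} {c : Fin n → ℂ} {r : ℝ} (hr : 0 < r)
    (hf : ContinuousOn f {ζ | ∀ i, ζ i ∈ sphere (c i) r}) {z₀ : Fin n → ℂ} (hz₀ : z₀ ∈ ball c r) :
    AnalyticAt ℂ (fun z : Fin n → ℂ => ∯ ζ in T(c, fun _ => r), (∏ i, (ζ i - z i)⁻¹) • f ζ) z₀ := by
  set X : Set (Fin n → ℝ) := Icc (0 : Fin n → ℝ) (fun _ => 2 * π) with hX
  have : CompactSpace X := isCompact_iff_compactSpace.1 isCompact_Icc
  -- the coordinate functions on the torus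
  have hmap : Continuous (torusMap c (fun _ : Fin n => r)) := by
    unfold torusMap
    fun_prop
  have hm : ∀ θ i, torusMap c (fun _ : Fin n => r) θ i ∈ sphere (c i) r := by
    intro θ i
    simp [torusMap, abs_of_pos hr]
  let A : Fin n → C(X, ℂ) := fun i =>
    ⟨fun θ => torusMap c (fun _ : Fin n => r) θ.1 i,
      ((continuous_apply i).comp hmap).comp continuous_subtype_val⟩
  let B : (Fin n → ℂ) → Fin n → C(X, ℂ) := fun z i => A i - algebraMap ℂ C(X, ℂ) (z i)
  let K : (Fin n → ℂ) → C(X, ℂ) := fun z => ∏ i, Ring.inverse (B z i)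
  have hBu : ∀ z ∈ ball c r, ∀ i, ∃ u : (C(X, ℂ))ˣ, (u : C(X, ℂ)) = B z i ∧
      ∀ θ : X, ((↑u⁻¹ : C(X, ℂ)) θ) = (torusMap c (fun _ : Fin n => r) θ.1 i - z i)⁻¹ := by
    intro z hz i
    have hne : ∀ θ : X, B z i θ ≠ 0 := by
      intro θ h0
      have h1 := hm θ.1 i
      have h2 : z i ∈ ball (c i) r := by
        rw [mem_ball, dist_pi_lt_iff hr] at hz
        exact hz i
      have h3 : torusMap c (fun _ : Fin n => r) θ.1 i - z i = 0 := by
        simpa [B, A] using h0
      rw [sub_eq_zero] at h3
      rw [h3] at h1
      exact (ne_of_lt (mem_ball.1 h2)) (mem_sphere.1 h1)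
    let v : C(X, ℂ) := ⟨fun θ => (B z i θ)⁻¹, (B z i).continuous.inv₀ hne⟩
    have huv : B z i * v = 1 := by
      ext θ
      simp [v, mul_inv_cancel₀ (hne θ)]
    refine ⟨⟨B z i, v, huv, by rw [mul_comm]; exact huv⟩, rfl, ?_⟩
    intro θ
    simp [v, B, A]
  have hK : AnalyticAt ℂ K z₀ := by
    apply Finset.analyticAt_fun_prod
    intro i _
    obtain ⟨u, hu, -⟩ := hBu z₀ hz₀ i
    have h1 : AnalyticAt ℂ (Ring.inverse : C(X, ℂ) → C(X, ℂ)) (B z₀ i) := by
      rw [← hu]
      exact analyticAt_inverse u
    have h2 : AnalyticAt ℂ (fun z : Fin n → ℂ => B z i) z₀ := by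
      apply AnalyticAt.sub analyticAt_const
      exact ((Algebra.linearMap ℂ C(X, ℂ)).toContinuousLinearMap.comp
        (ContinuousLinearMap.proj (R := ℂ) (φ := fun _ : Fin n => ℂ) i)).analyticAt z₀
    exact AnalyticAt.comp (g := Ring.inverse) (f := fun z : Fin n → ℂ => B z i) h1 h2
  -- the integral as a continuous linear map
  let μ : Measure X := Measure.comap (Subtype.val : X → (Fin n → ℝ)) volume
  have hXm : MeasurableSet X := measurableSet_Icc
  have hμ : IsFiniteMeasure μ := by
    constructor
    rw [comap_subtype_coe_apply hXm]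
    refine lt_of_le_of_lt (measure_mono (t := X) ?_) (isCompact_Icc.measure_lt_top)
    rintro _ ⟨x, -, rfl⟩
    exact x.2
  let g₀ : (Fin n → ℝ) → F := fun θ =>
    ((∏ i : Fin n, (r : ℂ) * Complex.exp (θ i * Complex.I) * Complex.I : ℂ)) •
      f (torusMap c (fun _ => r) θ)
  have hg₀ : Continuous g₀ := by
    apply Continuous.smul
    · fun_prop
    · exact hf.comp_continuous hmap fun θ i => hm θ i
  let g : C(X, F) := ⟨fun θ => g₀ θ.1, hg₀.comp continuous_subtype_val⟩
  have hint : ∀ h : C(X, F), Integrable (fun θ => h θ) μ := by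
    intro h
    refine Integrable.of_bound h.continuous.aestronglyMeasurable ‖h‖ ?_
    exact Eventually.of_forall fun θ => h.norm_coe_le_norm θ
  let L : C(X, ℂ) →L[ℂ] F := LinearMap.mkContinuous
    { toFun := fun h => ∫ θ, h θ • g θ ∂μ
      map_add' := by
        intro h k
        simp only [ContinuousMap.add_apply, add_smul]
        exact integral_add (hint (h • g)) (hint (k • g))
      map_smul' := by
        intro a h
        simp only [ContinuousMap.smul_apply, smul_assoc, RingHom.id_apply]
        exact integral_smul a _ } (∫ θ, ‖g θ‖ ∂μ) (by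
      intro h
      simp only [LinearMap.coe_mk, AddHom.coe_mk]
      refine (norm_integral_le_integral_norm _).trans ?_
      rw [mul_comm, ← integral_const_mul]
      refine integral_mono (hint (h • g)).norm ((hint g).norm.const_mul _) ?_
      intro θ
      simp only [norm_smul]
      exact mul_le_mul_of_nonneg_right (h.norm_coe_le_norm θ) (norm_nonneg _))
  have hL : ∀ h, L h = ∫ θ, h θ • g θ ∂μ := fun h => rfl
  have hfor : ∀ z ∈ ball c r, L (K z) = ∯ ζ in T(c, fun _ => r), (∏ i, (ζ i - z i)⁻¹) • f ζ := by
    intro z hz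
    rw [hL, torusIntegral]
    rw [← integral_subtype_comap hXm]
    congr 1
    ext θ
    have h3 : K z θ = ∏ i, (torusMap c (fun _ : Fin n => r) θ.1 i - z i)⁻¹ := by
      simp only [K, ContinuousMap.coe_prod, Finset.prod_apply]
      apply Finset.prod_congr rfl
      intro i _
      obtain ⟨u, hu, hu'⟩ := hBu z hz i
      rw [← hu, Ring.inverse_unit, hu' θ]
    rw [h3]
    simp only [g, g₀, ContinuousMap.coe_mk]
    rw [smul_comm]
  have hfin : AnalyticAt ℂ (fun z => L (K z)) z₀ := L.analyticAt (K z₀) |>.comp hK
  refine hfin.congr ?_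
  filter_upwards [isOpen_ball.mem_nhds hz₀] with z hz
  exact hfor z hz

/-- Osgood for functions on the coordinate space, at one point. -/
theorem osgood_pi {F : Type*} [NormedAddCommGroup F] [NormedSpace ℂ F] [CompleteSpace F]
    {n : ℕ} {f : (Fin n → ℂ) → F} {U : Set (Fin n → ℂ)} (hU : IsOpen U)
    (hf : DifferentiableOn ℂ f U) {c : Fin n → ℂ} (hc : c ∈ U) : AnalyticAt ℂ f c := by
  obtain ⟨r, hr, hrU⟩ : ∃ r > 0, closedBall c r ⊆ U :=
    (Metric.nhds_basis_closedBall.mem_iff).1 (hU.mem_nhds hc)
  have hcont : ContinuousOn f {ζ | ∀ i, ζ i ∈ sphere (c i) r} := by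
    refine hf.continuousOn.mono ?_
    intro ζ hζ
    apply hrU
    rw [mem_closedBall, dist_pi_le_iff hr.le]
    intro i
    exact (mem_sphere.1 (hζ i)).le
  have h1 := (torus_analytic hr hcont (mem_ball_self hr)).const_smul
    (c := ((2 * π * Complex.I : ℂ) ^ n)⁻¹)
  refine h1.congr ?_
  filter_upwards [ball_mem_nhds c hr] with z hz
  rw [Pi.smul_apply, cauchy_torus n f U c z r hr hf hU hrU hz, smul_smul, inv_mul_cancel₀, one_smul]
  apply pow_ne_zero
  simp [Real.pi_ne_zero]

/-- **Osgood's lemma**: a function which is complex differentiable on an open set of a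
finite-dimensional complex space is analytic there. -/
theorem osgood {E F : Type*} [NormedAddCommGroup E] [NormedSpace ℂ E] [FiniteDimensional ℂ E]
    [NormedAddCommGroup F] [NormedSpace ℂ F] [CompleteSpace F] {f : E → F} {U : Set E}
    (hU : IsOpen U) (hf : DifferentiableOn ℂ f U) : AnalyticOnNhd ℂ f U := by
  intro x hx
  have hfr : Module.finrank ℂ E = Module.finrank ℂ (Fin (Module.finrank ℂ E) → ℂ) := by simp
  let e : E ≃L[ℂ] (Fin (Module.finrank ℂ E) → ℂ) := ContinuousLinearEquiv.ofFinrankEq hfr
  have h1 : AnalyticAt ℂ (fun y => f (e.symm y)) (e x) := by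
    apply osgood_pi (U := e.symm ⁻¹' U) (hU.preimage e.symm.continuous)
    · intro y hy
      apply DifferentiableAt.differentiableWithinAt
      exact (hf.differentiableAt (hU.mem_nhds hy)).comp y e.symm.differentiableAt
    · simpa using hx
  have h2 : AnalyticAt ℂ (fun y : E => e y) x :=
    (e : E →L[ℂ] (Fin (Module.finrank ℂ E) → ℂ)).analyticAt x
  have h3 := AnalyticAt.comp (g := fun y => f (e.symm y)) (f := fun y : E => e y) h1 h2
  simpa [Function.comp_def] using h3

end Pool.Agent.KO.C
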