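import Mathlib

/-!
# Project KO, several complex variables: identity theorems
-/

set_option autoImplicit false

namespace Pool.Agent.KO.C

open Set Filter Topology

variable {E F : Type*} [NormedAddCommGroup E] [NormedSpace ℂ E]
  [NormedAddCommGroup F] [NormedSpace ℂ F]

/-- Identity theorem: a function that vanishes on a non-empty open set vanishes. -/
theorem eq_of_dense {f : E → F} {U V : Set E} (hf : AnalyticOnNhd ℂ f U) (hU : IsPreconnected U)
    (hV : IsOpen V) (hVU : (V ∩ U).Nonempty) (h : ∀ x ∈ V, f x = 0) : ∀ x ∈ U, f x = 0 := by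
  obtain ⟨x, hxV, hxU⟩ := hVU
  exact hf.eqOn_zero_of_preconnected_of_eventuallyEq_zero hU hxU
    (Filter.eventually_of_mem (hV.mem_nhds hxV) h)

/-- On a preconnected open set a function that is not zero is not zero near any point. -/
theorem freq_ne_on {f : E → F} {U : Set E} (hf : AnalyticOnNhd ℂ f U) (hU : IsPreconnected U)
    (hne : ∃ x ∈ U, f x ≠ 0) : ∀ x ∈ U, ∃ᶠ y in 𝓝 x, f y ≠ 0 := by
  intro x hx
  by_contra hcon
  rw [Filter.not_frequently] at hcon
  obtain ⟨y, hy, hy0⟩ := hne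
  exact hy0 (hf.eqOn_zero_of_preconnected_of_eventuallyEq_zero hU hx
    (hcon.mono fun z hz => not_not.1 hz) hy)

/-- The set of the points where a non-zero analytic function does not vanish is dense. -/
theorem subset_closure {f : E → F} {U : Set E} (hf : AnalyticOnNhd ℂ f U) (hUo : IsOpen U)
    (hU : IsPreconnected U) (hne : ∃ x ∈ U, f x ≠ 0) :
    U ⊆ closure {x | x ∈ U ∧ f x ≠ 0} := by
  intro x hx
  rw [mem_closure_iff_frequently]
  have h1 := freq_ne_on hf hU hne x hx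
  exact (h1.and_eventually (hUo.mem_nhds hx)).mono fun y hy => ⟨hy.2, hy.1⟩

/-- A ball on which the function is analytic. -/
theorem exists_ball [CompleteSpace F] {f : E → F} {p : E} (hf : AnalyticAt ℂ f p) {V : Set E} (hV : V ∈ 𝓝 p) :
    ∃ r > 0, Metric.ball p r ⊆ V ∧ AnalyticOnNhd ℂ f (Metric.ball p r) := by
  have h1 := hf.eventually_analyticAt
  obtain ⟨r, hr, h⟩ := Metric.eventually_nhds_iff_ball.1 (h1.and hV)
  exact ⟨r, hr, fun x hx => (h x hx).2, fun x hx => (h x hx).1⟩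

theorem preconn_ball (p : E) (r : ℝ) : IsPreconnected (Metric.ball p r) := by
  let _ : NormedSpace ℝ E := NormedSpace.restrictScalars ℝ ℂ E
  exact (convex_ball p r).isPreconnected

/-- A germ that is not zero is not zero near all nearby points. -/
theorem freq_ne [CompleteSpace F] {f : E → F} {p : E} (hf : AnalyticAt ℂ f p) (hne : ¬ ∀ᶠ x in 𝓝 p, f x = 0) :
    ∀ᶠ x in 𝓝 p, ∃ᶠ y in 𝓝 x, f y ≠ 0 := by
  obtain ⟨r, hr, -, hfr⟩ := exists_ball hf Filter.univ_mem
  have h1 : ∃ x ∈ Metric.ball p r, f x ≠ 0 := by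
    by_contra hcon
    push Not at hcon
    exact hne (Filter.eventually_of_mem (Metric.ball_mem_nhds p hr) hcon)
  exact Filter.eventually_of_mem (Metric.ball_mem_nhds p hr)
    (freq_ne_on hfr (preconn_ball p r) h1)

/-- Functions that agree on a dense set near `p` and are continuous near `p` agree near `p`. -/
theorem eq_of_closure {X Y : Type*} [TopologicalSpace X] [TopologicalSpace Y] [T2Space Y]
    {f g : X → Y} {p : X} (hf : ∀ᶠ x in 𝓝 p, ContinuousAt f x)
    (hg : ∀ᶠ x in 𝓝 p, ContinuousAt g x) (h : ∀ᶠ x in 𝓝 p, ∃ᶠ y in 𝓝 x, f y = g y) :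
    ∀ᶠ x in 𝓝 p, f x = g x := by
  filter_upwards [hf, hg, h] with x h1 h2 h3
  by_contra hne
  have h4 : ∀ᶠ y in 𝓝 x, f y ≠ g y := by
    have h5 : ∀ᶠ z in 𝓝 (f x, g x), z.1 ≠ z.2 :=
      (isClosed_diagonal.isOpen_compl.mem_nhds (show (f x, g x) ∈ (diagonal Y)ᶜ from hne))
    exact (h1.prodMk h2).eventually h5
  exact h3 (h4.mono fun y hy => hy)

/-- The germs of analytic functions form a domain. -/
theorem germ_mul {f g : E → ℂ} {p : E} (hf : AnalyticAt ℂ f p) (hg : AnalyticAt ℂ g p)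
    (h : ∀ᶠ x in 𝓝 p, f x * g x = 0) : (∀ᶠ x in 𝓝 p, f x = 0) ∨ ∀ᶠ x in 𝓝 p, g x = 0 := by
  by_cases h1 : ∀ᶠ x in 𝓝 p, f x = 0
  · exact Or.inl h1
  · right
    have h2 := freq_ne hf h1
    have h3 : ∀ᶠ x in 𝓝 p, ∀ᶠ y in 𝓝 x, f y * g y = 0 := h.eventually_nhds
    refine eq_of_closure (g := fun _ => (0 : ℂ))
      (hg.eventually_analyticAt.mono fun x hx => hx.continuousAt)
      (Filter.Eventually.of_forall fun _ => continuousAt_const) ?_
    filter_upwards [h2, h3] with x hx1 hx2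
    exact (hx1.and_eventually hx2).mono fun y hy => (mul_eq_zero.1 hy.2).resolve_left hy.1

/-- Cancellation of germs. -/
theorem cancel {b f g : E → ℂ} {p : E} (hb : AnalyticAt ℂ b p) (hf : AnalyticAt ℂ f p)
    (hg : AnalyticAt ℂ g p) (hne : ¬ ∀ᶠ x in 𝓝 p, b x = 0)
    (h : ∀ᶠ x in 𝓝 p, b x * f x = b x * g x) : ∀ᶠ x in 𝓝 p, f x = g x := by
  have h1 : ∀ᶠ x in 𝓝 p, b x * (f x - g x) = 0 := h.mono fun x hx => by rw [mul_sub, hx, sub_self]
  rcases germ_mul hb (hf.sub hg) h1 with h2 | h2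
  · exact absurd h2 hne
  · exact h2.mono fun x hx => sub_eq_zero.1 hx

/-- Restriction to lines: for a germ that is not zero, the directions of the lines on which it is
zero have no interior point. -/
theorem line_dense {f : E → ℂ} {p : E} (hf : AnalyticAt ℂ f p)
    (hne : ¬ ∀ᶠ x in 𝓝 p, f x = 0) :
    Dense {v : E | ¬ ∀ᶠ ζ in 𝓝 (0 : ℂ), f (p + ζ • v) = 0} := by
  obtain ⟨r, hr, -, hfr⟩ := exists_ball hf Filter.univ_mem
  rw [dense_iff_inter_open]
  intro W hW hWne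
  by_contra hcon
  have hall : ∀ v ∈ W, ∀ᶠ ζ in 𝓝 (0 : ℂ), f (p + ζ • v) = 0 := by
    intro v hv
    by_contra h
    exact hcon ⟨v, hv, h⟩
  obtain ⟨v0, hv0⟩ := hWne
  -- on the whole disc
  have hdisc : ∀ v ∈ W, ∀ ζ : ℂ, ‖ζ‖ * (‖v‖ + 1) < r → f (p + ζ • v) = 0 := by
    intro v hv ζ hζ
    have hpos : 0 < ‖v‖ + 1 := by positivity
    have hζ' : ζ ∈ Metric.ball (0 : ℂ) (r / (‖v‖ + 1)) := by
      rw [mem_ball_zero_iff, lt_div_iff₀ hpos]
      exact hζ
    have hmap : ∀ ζ ∈ Metric.ball (0 : ℂ) (r / (‖v‖ + 1)), p + ζ • v ∈ Metric.ball p r := by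
      intro ζ hζ
      rw [mem_ball_zero_iff, lt_div_iff₀ hpos] at hζ
      rw [mem_ball_iff_norm, add_sub_cancel_left, norm_smul]
      nlinarith [norm_nonneg ζ, norm_nonneg v]
    have ha : AnalyticOnNhd ℂ (fun ζ : ℂ => f (p + ζ • v))
        (Metric.ball (0 : ℂ) (r / (‖v‖ + 1))) := by
      intro ζ hζ
      have h1 : AnalyticAt ℂ (fun ζ : ℂ => p + ζ • v) ζ :=
        analyticAt_const.add (analyticAt_id.smul analyticAt_const)
      exact AnalyticAt.comp (g := f) (f := fun ζ : ℂ => p + ζ • v) (hfr _ (hmap ζ hζ)) h1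
    exact ha.eqOn_zero_of_preconnected_of_eventuallyEq_zero (preconn_ball _ _)
      (Metric.mem_ball_self (by positivity)) (hall v hv) hζ'
  -- an open set on which `f` vanishes
  obtain ⟨ζ0, hζ0, hζ0'⟩ : ∃ ζ0 : ℂ, ζ0 ≠ 0 ∧ ‖ζ0‖ * (‖v0‖ + 2) < r := by
    refine ⟨((r / (2 * (‖v0‖ + 2)) : ℝ) : ℂ), ?_, ?_⟩
    · have : 0 < r / (2 * (‖v0‖ + 2)) := by positivity
      exact_mod_cast this.ne'
    · rw [Complex.norm_real, Real.norm_eq_abs, abs_of_pos (by positivity)]
      have : r / (2 * (‖v0‖ + 2)) * (‖v0‖ + 2) = r / 2 := by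
        field_simp
      rw [this]
      linarith
  have hcont : Continuous fun x : E => ζ0⁻¹ • (x - p) := by fun_prop
  have hO : IsOpen ((fun x : E => ζ0⁻¹ • (x - p)) ⁻¹' (W ∩ Metric.ball v0 1)) :=
    (hW.inter Metric.isOpen_ball).preimage hcont
  refine hne ?_
  have hmem : p + ζ0 • v0 ∈ (fun x : E => ζ0⁻¹ • (x - p)) ⁻¹' (W ∩ Metric.ball v0 1) := by
    rw [mem_preimage, add_sub_cancel_left, inv_smul_smul₀ hζ0]
    exact ⟨hv0, Metric.mem_ball_self one_pos⟩
  have hmem2 : p + ζ0 • v0 ∈ Metric.ball p r := by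
    rw [mem_ball_iff_norm, add_sub_cancel_left, norm_smul]
    nlinarith [norm_nonneg ζ0, norm_nonneg v0]
  have h2 := eq_of_dense hfr (preconn_ball p r) hO ⟨_, hmem, hmem2⟩ (by
    intro x hx
    have h3 := hdisc (ζ0⁻¹ • (x - p)) hx.1 ζ0 (by
      have h4 : ‖ζ0⁻¹ • (x - p)‖ ≤ ‖v0‖ + 1 := by
        have h5 := hx.2
        rw [mem_ball_iff_norm] at h5
        have h6 := norm_add_le (ζ0⁻¹ • (x - p) - v0) v0
        rw [sub_add_cancel] at h6
        linarith
      nlinarith [norm_nonneg ζ0])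
    rw [smul_inv_smul₀ hζ0, add_sub_cancel] at h3
    exact h3)
  exact Filter.eventually_of_mem (Metric.ball_mem_nhds p hr) h2

/-- A direction in which a germ that is not zero is not zero. -/
theorem line {f : E → ℂ} {p : E} (hf : AnalyticAt ℂ f p) (hne : ¬ ∀ᶠ x in 𝓝 p, f x = 0) :
    ∃ v : E, ¬ ∀ᶠ ζ in 𝓝 (0 : ℂ), f (p + ζ • v) = 0 :=
  (line_dense hf hne).nonempty

end Pool.Agent.KO.C
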