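import Mathlib

/-!
# Project KO, several complex variables: inverse and implicit function theorems
-/

set_option autoImplicit false

namespace Pool.Agent.KO.C

open Set Filter Topology

section

variable {E F G : Type*} [NormedAddCommGroup E] [NormedSpace ℂ E] [CompleteSpace E]
  [NormedAddCommGroup F] [NormedSpace ℂ F] [CompleteSpace F]
  [NormedAddCommGroup G] [NormedSpace ℂ G] [CompleteSpace G]

/-- The analytic inverse function theorem. -/
theorem inv {f : E → F} {a : E} (hf : AnalyticAt ℂ f a) (i : E ≃L[ℂ] F)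
    (hi : fderiv ℂ f a = (i : E →L[ℂ] F)) :
    ∃ e : OpenPartialHomeomorph E F, a ∈ e.source ∧ (∀ x, e x = f x) ∧
      AnalyticOnNhd ℂ f e.source ∧ AnalyticOnNhd ℂ e.symm e.target := by
  have hs : HasStrictFDerivAt f (i : E →L[ℂ] F) a := hi ▸ hf.hasStrictFDerivAt
  set R : OpenPartialHomeomorph E F := hs.toOpenPartialHomeomorph f with hR
  have hRf : ∀ x, R x = f x := fun _ => rfl
  have ha : a ∈ R.source := hs.mem_toOpenPartialHomeomorph_source
  have hsymm : AnalyticAt ℂ R.symm (f a) := by
    obtain ⟨p, hp⟩ := hf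
    have h1 := R.hasFPowerSeriesAt_symm (a := a) (i := i) ha hp (by
      have h2 := hp.fderiv_eq
      rw [hi] at h2
      rw [h2, LinearIsometryEquiv.symm_apply_apply])
    exact h1.analyticAt
  set s : Set E := R.source ∩ ({x | AnalyticAt ℂ f x} ∩ (R ⁻¹' {y | AnalyticAt ℂ R.symm y}))
    with hsdef
  have hso : IsOpen s := by
    have h1 : IsOpen (R.source ∩ R ⁻¹' {y | AnalyticAt ℂ R.symm y}) :=
      R.isOpen_inter_preimage (isOpen_analyticAt ℂ _)
    have h2 : s = (R.source ∩ R ⁻¹' {y | AnalyticAt ℂ R.symm y}) ∩ {x | AnalyticAt ℂ f x} := by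
      rw [hsdef]
      ext x
      simp only [mem_inter_iff]
      tauto
    rw [h2]
    exact h1.inter (isOpen_analyticAt ℂ f)
  refine ⟨R.restrOpen s hso, ?_, fun x => rfl, ?_, ?_⟩
  · rw [OpenPartialHomeomorph.restrOpen_source]
    exact ⟨ha, ha, hf, hsymm⟩
  · intro x hx
    rw [OpenPartialHomeomorph.restrOpen_source] at hx
    exact hx.2.2.1
  · intro y hy
    have h1 : (R.restrOpen s hso).symm y ∈ (R.restrOpen s hso).source :=
      (R.restrOpen s hso).map_target hy
    rw [OpenPartialHomeomorph.restrOpen_source] at h1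
    have h2 : R ((R.restrOpen s hso).symm y) = y := (R.restrOpen s hso).right_inv hy
    have h3 := h1.2.2.2
    rw [mem_preimage, h2] at h3
    exact h3

/-- The analytic implicit function theorem. -/
theorem imp {H : E × F → G} {a : E} {b : F} (hH : AnalyticAt ℂ H (a, b)) (i : F ≃L[ℂ] G)
    (hi : (fderiv ℂ H (a, b)).comp (ContinuousLinearMap.inr ℂ E F) = (i : F →L[ℂ] G)) :
    ∃ φ : E → F, AnalyticAt ℂ φ a ∧ φ a = b ∧
      ∀ᶠ z in 𝓝 (a, b), (H z = H (a, b) ↔ z.2 = φ z.1) := by
  set Φ : E × F → E × G := fun z => (z.1, H z) with hΦ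
  have hΦa : AnalyticAt ℂ Φ (a, b) := analyticAt_fst.prod hH
  have hHs := hH.hasStrictFDerivAt
  set D : E × F →L[ℂ] G := fderiv ℂ H (a, b) with hD
  have hDs : ∀ z : E × F, D z = D (z.1, 0) + i z.2 := by
    intro z
    have h1 : z = (z.1, 0) + ContinuousLinearMap.inr ℂ E F z.2 := by
      ext <;> simp
    have h2 := congrArg (fun L : F →L[ℂ] G => L z.2) hi
    simp only [ContinuousLinearMap.comp_apply, ContinuousLinearEquiv.coe_coe] at h2
    conv_lhs => rw [h1, map_add, h2]
  let I : (E × F) ≃L[ℂ] (E × G) :=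
    ContinuousLinearEquiv.equivOfInverse
      ((ContinuousLinearMap.fst ℂ E F).prod D)
      ((ContinuousLinearMap.fst ℂ E G).prod
        ((i.symm : G →L[ℂ] F).comp (ContinuousLinearMap.snd ℂ E G -
          (D.comp (ContinuousLinearMap.inl ℂ E F)).comp (ContinuousLinearMap.fst ℂ E G))))
      (by
        intro z
        refine Prod.ext rfl ?_
        show i.symm (D z - D (z.1, 0)) = z.2
        rw [hDs z, add_sub_cancel_left, ContinuousLinearEquiv.symm_apply_apply])
      (by
        intro z
        refine Prod.ext rfl ?_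
        show D (z.1, i.symm (z.2 - D (z.1, 0))) = z.2
        rw [hDs (z.1, i.symm (z.2 - D (z.1, 0)))]
        show D (z.1, 0) + i (i.symm (z.2 - D (z.1, 0))) = z.2
        rw [ContinuousLinearEquiv.apply_symm_apply]
        abel)
  have hΦd : fderiv ℂ Φ (a, b) = (I : E × F →L[ℂ] E × G) := by
    have h1 : HasFDerivAt Φ ((ContinuousLinearMap.fst ℂ E F).prod D) (a, b) :=
      hasFDerivAt_fst.prodMk hHs.hasFDerivAt
    rw [h1.fderiv]
    rfl
  obtain ⟨e, hea, hef, -, hes⟩ := inv hΦa I hΦd
  have hΦab : Φ (a, b) = (a, H (a, b)) := rfl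
  have htar : (a, H (a, b)) ∈ e.target := by
    have := e.map_source hea
    rwa [hef, hΦab] at this
  have hsymm : e.symm (a, H (a, b)) = (a, b) := by
    have := e.left_inv hea
    rwa [hef, hΦab] at this
  have hι : AnalyticAt ℂ (fun x : E => (x, H (a, b))) a := analyticAt_id.prod analyticAt_const
  refine ⟨fun x => (e.symm (x, H (a, b))).2, ?_, ?_, ?_⟩
  · have h1 : AnalyticAt ℂ (e.symm ∘ (fun x : E => (x, H (a, b)))) a :=
      AnalyticAt.comp (g := e.symm) (f := fun x : E => (x, H (a, b))) (hes _ htar) hι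
    exact AnalyticAt.comp (g := Prod.snd) (f := e.symm ∘ fun x : E => (x, H (a, b)))
      analyticAt_snd h1
  · show (e.symm (a, H (a, b))).2 = b
    rw [hsymm]
  · have h1 : ∀ᶠ z in 𝓝 (a, b), z ∈ e.source := e.open_source.mem_nhds hea
    have h2 : ∀ᶠ z : E × F in 𝓝 (a, b), (z.1, H (a, b)) ∈ e.target := by
      have hc : ContinuousAt (fun z : E × F => (z.1, H (a, b))) (a, b) := by fun_prop
      exact hc.eventually_mem (e.open_target.mem_nhds htar)
    filter_upwards [h1, h2] with z hz1 hz2
    constructor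
    · intro h
      have h3 : e z = (z.1, H (a, b)) := by rw [hef]; exact Prod.ext rfl h
      have h4 := e.left_inv hz1
      rw [h3] at h4
      show z.2 = (e.symm (z.1, H (a, b))).2
      rw [h4]
    · intro h
      have h3 := e.right_inv hz2
      rw [hef] at h3
      have h4 : (e.symm (z.1, H (a, b))).1 = z.1 := by
        have h4 := congrArg Prod.fst h3
        exact h4
      have h5 : H (e.symm (z.1, H (a, b))) = H (a, b) := by
        have h5 := congrArg Prod.snd h3
        exact h5
      have h6 : e.symm (z.1, H (a, b)) = z := Prod.ext h4 h.symm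
      rwa [h6] at h5

end

/-- The analytic inverse function theorem in `ℂ^n`. -/
theorem inv_det {n : ℕ} {f : (Fin n → ℂ) → (Fin n → ℂ)} {a : Fin n → ℂ}
    (hf : AnalyticAt ℂ f a) (hd : (fderiv ℂ f a).det ≠ 0) :
    ∃ e : OpenPartialHomeomorph (Fin n → ℂ) (Fin n → ℂ), a ∈ e.source ∧ (∀ x, e x = f x) ∧
      AnalyticOnNhd ℂ f e.source ∧ AnalyticOnNhd ℂ e.symm e.target :=
  inv hf ((fderiv ℂ f a).toContinuousLinearEquivOfDetNeZero hd) (by
    ext v i
    simp)

/-- An analytic function with a non-zero partial derivative is a coordinate. -/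
theorem coord {n : ℕ} {c : (Fin n → ℂ) → ℂ} {p : Fin n → ℂ} (hc : AnalyticAt ℂ c p)
    (j : Fin n) (hj : fderiv ℂ c p (Pi.single j 1) ≠ 0) :
    ∃ e : OpenPartialHomeomorph (Fin n → ℂ) (Fin n → ℂ), p ∈ e.source ∧
      (∀ x, e x = Function.update x j (c x)) ∧ AnalyticOnNhd ℂ c e.source ∧
      AnalyticOnNhd ℂ e.symm e.target := by
  classical
  set f : (Fin n → ℂ) → (Fin n → ℂ) := fun x => Function.update x j (c x) with hf
  have hfi : ∀ i, (fun x => f x i) = if i = j then c else fun x => x i := by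
    intro i
    by_cases h : i = j
    · subst h
      ext x
      simp [hf]
    · ext x
      simp [hf, h]
  have hfa : AnalyticAt ℂ f p := by
    rw [analyticAt_pi_iff]
    intro i
    rw [hfi i]
    split_ifs
    · exact hc
    · exact (ContinuousLinearMap.proj (R := ℂ) (φ := fun _ : Fin n => ℂ) i).analyticAt p
  have hder : ∀ v i, fderiv ℂ f p v i = if i = j then fderiv ℂ c p v else v i := by
    intro v i
    have h1 : fderiv ℂ f p v i = fderiv ℂ (fun x => f x i) p v := by
      have h2 := fderiv_apply (𝕜 := ℂ) hfa.differentiableAt i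
      rw [h2]
      rfl
    rw [h1, hfi i]
    split_ifs
    · rfl
    · have h2 : HasFDerivAt (fun x : Fin n → ℂ => x i)
        (ContinuousLinearMap.proj (R := ℂ) (φ := fun _ : Fin n => ℂ) i) p :=
        (ContinuousLinearMap.proj (R := ℂ) (φ := fun _ : Fin n => ℂ) i).hasFDerivAt
      rw [h2.fderiv]
      rfl
  have hinj : Function.Injective (fderiv ℂ f p : (Fin n → ℂ) →ₗ[ℂ] (Fin n → ℂ)) := by
    rw [← LinearMap.ker_eq_bot, LinearMap.ker_eq_bot']
    intro v hv
    have h1 : ∀ i, i ≠ j → v i = 0 := by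
      intro i hi
      have := congrFun hv i
      simp only [ContinuousLinearMap.coe_coe] at this
      rw [hder v i, if_neg hi] at this
      exact this
    have h2 : v = v j • Pi.single j (1 : ℂ) := by
      ext i
      by_cases hi : i = j
      · subst hi; simp
      · simp [hi, h1 i hi]
    have h3 := congrFun hv j
    simp only [ContinuousLinearMap.coe_coe] at h3
    rw [hder v j, if_pos rfl, h2, map_smul, smul_eq_mul] at h3
    have h4 : v j = 0 := by
      rcases mul_eq_zero.1 h3 with h | h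
      · exact h
      · exact absurd h hj
    rw [h2, h4, zero_smul]
  let L : (Fin n → ℂ) ≃ₗ[ℂ] (Fin n → ℂ) := LinearEquiv.ofInjectiveEndo _ hinj
  let i : (Fin n → ℂ) ≃L[ℂ] (Fin n → ℂ) := L.toContinuousLinearEquiv
  obtain ⟨e, h1, h2, h3, h4⟩ := inv hfa i (by
    ext v k
    rfl)
  refine ⟨e, h1, h2, ?_, h4⟩
  intro x hx
  have h5 := (analyticAt_pi_iff.1 (h3 x hx)) j
  have h6 := hfi j
  rw [if_pos rfl] at h6
  change AnalyticAt ℂ (fun x => f x j) x at h5
  rwa [h6] at h5

end Pool.Agent.KO.C
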