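import Pool.Agent.KO.C.Circle

/-!
# Project KO, block C: Cauchy extensions and Riemann's extension theorem
-/

set_option autoImplicit false
open Set Filter Topology Metric

namespace Pool.Agent.KO.C

variable {E G : Type*} [NormedAddCommGroup E] [NormedSpace ℂ E]
  [NormedAddCommGroup G] [NormedSpace ℂ G]

/-- The Cauchy integral of `F` over the circle of radius `r` in the line of direction `v`
through `x`; the linear form `l` is the coordinate on the line. -/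
noncomputable def cx (F : E → G) (p v : E) (l : E →L[ℂ] ℂ) (r : ℝ) (x : E) : G :=
  (2 * Real.pi * Complex.I : ℂ)⁻¹ • ∮ ζ in C(0, r), (ζ - l (x - p))⁻¹ • F (x + (ζ - l (x - p)) • v)

theorem cx_analyticAt [FiniteDimensional ℂ E] [CompleteSpace G] {F : E → G} {p v : E}
    {l : E →L[ℂ] ℂ} {r : ℝ} (hr : 0 < r) (h : ∀ ζ ∈ sphere (0 : ℂ) r, AnalyticAt ℂ F (p + ζ • v)) :
    AnalyticAt ℂ (cx F p v l r) p := by
  refine AnalyticAt.smul analyticAt_const ?_
  refine circ (F := fun q : E × ℂ => (q.2 - l (q.1 - p))⁻¹ • F (q.1 + (q.2 - l (q.1 - p)) • v))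
    hr.le fun ζ hζ => ?_
  have hlin : AnalyticAt ℂ (fun q : E × ℂ => q.2 - l (q.1 - p)) (p, ζ) :=
    analyticAt_snd.sub (l.analyticAt _ |>.comp (analyticAt_fst.sub analyticAt_const))
  have hζ0 : ζ ≠ 0 := by
    rintro rfl
    rw [mem_sphere_iff_norm, sub_self, norm_zero] at hζ
    exact hr.ne hζ
  refine AnalyticAt.smul (hlin.inv ?_) ?_
  · simpa using hζ0
  · refine AnalyticAt.comp (g := F) (f := fun q : E × ℂ => q.1 + (q.2 - l (q.1 - p)) • v) ?_
      (analyticAt_fst.add (hlin.smul analyticAt_const))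
    simpa using h ζ hζ

theorem cx_eq {F : E → G} [CompleteSpace G] {p v x : E} {l : E →L[ℂ] ℂ} {r : ℝ} {g : ℂ → G}
    (hx : ‖l (x - p)‖ < r) (hg : DiffContOnCl ℂ g (ball 0 r))
    (hs : ∀ ζ ∈ sphere (0 : ℂ) r, F (x + (ζ - l (x - p)) • v) = g ζ) :
    cx F p v l r x = g (l (x - p)) := by
  have hr : 0 < r := (norm_nonneg _).trans_lt hx
  have h1 := hg.two_pi_i_inv_smul_circleIntegral_sub_inv_smul (w := l (x - p)) (by simpa using hx)
  rw [cx, ← h1]
  congr 1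
  refine circleIntegral.integral_congr hr.le fun ζ hζ => ?_
  rw [hs ζ hζ]

omit [NormedSpace ℂ E] [NormedSpace ℂ G] in
/-- Two functions which are continuous at `x` and agree at points arbitrarily near `x`. -/
theorem eq_of_frequently {f g : E → G} {x : E} (hf : ContinuousAt f x) (hg : ContinuousAt g x)
    (h : ∃ᶠ y in 𝓝 x, f y = g y) : f x = g x := by
  by_contra hne
  refine h ?_
  filter_upwards [(hf.sub hg).eventually_ne (sub_ne_zero.2 hne)] with y hy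
  exact sub_ne_zero.1 hy

/-- Analytic functions form a domain. -/
theorem dom [CompleteSpace G] {f : E → ℂ} {g : E → G} {p : E} (hf : AnalyticAt ℂ f p) (hg : AnalyticAt ℂ g p)
    (hf0 : ∃ᶠ x in 𝓝 p, f x ≠ 0) (h : ∀ᶠ x in 𝓝 p, f x • g x = 0) : ∀ᶠ x in 𝓝 p, g x = 0 := by
  obtain ⟨ε, hε, hb⟩ := Metric.eventually_nhds_iff_ball.1
    (hf.eventually_analyticAt.and (hg.eventually_analyticAt.and h))
  obtain ⟨x, hx, hxb⟩ := (hf0.and_eventually (ball_mem_nhds p hε)).exists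
  have h1 : g =ᶠ[𝓝 x] 0 := by
    filter_upwards [(hb x hxb).1.continuousAt.eventually_ne hx, isOpen_ball.mem_nhds hxb]
      with y hy hyb
    exact (smul_eq_zero.1 (hb y hyb).2.2).resolve_left hy
  have h2 := AnalyticOnNhd.eqOn_zero_of_preconnected_of_eventuallyEq_zero
    (U := ball p ε) (fun y hy => (hb y hy).2.1) (convex_ball p ε).isPreconnected hxb h1
  exact Metric.eventually_nhds_iff_ball.2 ⟨ε, hε, h2⟩

/-- One variable: a bounded function which is differentiable where `β ≠ 0`. -/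
theorem riemann_one [CompleteSpace G] {W : Set ℂ} (hW : IsOpen W) {β : ℂ → ℂ} {φ : ℂ → G} {M : ℝ}
    (hiso : ∀ z ∈ W, ∀ᶠ ζ in 𝓝[≠] z, β ζ ≠ 0)
    (hd : ∀ z ∈ W, β z ≠ 0 → DifferentiableAt ℂ φ z) (hM : ∀ z ∈ W, β z ≠ 0 → ‖φ z‖ ≤ M) :
    ∃ g : ℂ → G, DifferentiableOn ℂ g W ∧ ∀ z ∈ W, β z ≠ 0 → g z = φ z := by
  have hval : ∀ z ∈ W, β z ≠ 0 → limUnder (𝓝[≠] z) φ = φ z := fun z hz h =>
    ((hd z hz h).continuousAt.tendsto.mono_left nhdsWithin_le_nhds).limUnder_eq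
  refine ⟨fun z => limUnder (𝓝[≠] z) φ, fun z hz => ?_, hval⟩
  obtain ⟨ε, hε, hb⟩ := Metric.eventually_nhds_iff_ball.1
    ((eventually_nhdsWithin_iff.1 (hiso z hz)).and (hW.eventually_mem hz))
  have h1 : DifferentiableOn ℂ φ (ball z ε \ {z}) := fun y hy =>
    (hd y (hb y hy.1).2 ((hb y hy.1).1 hy.2)).differentiableWithinAt
  have h2 := Complex.differentiableOn_update_limUnder_of_bddAbove (ball_mem_nhds z hε) h1
    ⟨M, by
      rintro _ ⟨y, hy, rfl⟩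
      exact hM y (hb y hy.1).2 ((hb y hy.1).1 hy.2)⟩
  have h3 : (fun z => limUnder (𝓝[≠] z) φ) =ᶠ[𝓝 z]
      Function.update φ z (limUnder (𝓝[≠] z) φ) := by
    filter_upwards [ball_mem_nhds z hε] with y hy
    by_cases hyz : y = z
    · subst hyz; simp
    · rw [Function.update_of_ne hyz]
      exact hval y (hb y hy).2 ((hb y hy).1 hyz)
  exact ((h2.differentiableAt (ball_mem_nhds z hε)).congr_of_eventuallyEq h3).differentiableWithinAt

/-- The points of the line of direction `v` through `x` stay near `p`. -/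
theorem line_near {p v : E} (l : E →L[ℂ] ℂ) {R δ : ℝ} (h : R * ‖v‖ < δ) :
    ∀ᶠ x in 𝓝 p, ∀ ζ ∈ ball (0 : ℂ) R, x + (ζ - l (x - p)) • v ∈ ball p δ := by
  have hc : ContinuousAt (fun x => ‖x - p‖ + (R + ‖l (x - p)‖) * ‖v‖) p := by fun_prop
  have h1 : ∀ᶠ x in 𝓝 p, ‖x - p‖ + (R + ‖l (x - p)‖) * ‖v‖ < δ := by
    apply hc.eventually_lt_const
    simpa using h
  filter_upwards [h1] with x hx ζ hζ
  rw [mem_ball_zero_iff] at hζ
  rw [mem_ball_iff_norm]
  calc ‖x + (ζ - l (x - p)) • v - p‖ = ‖(x - p) + (ζ - l (x - p)) • v‖ := by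
        congr 1; abel
    _ ≤ ‖x - p‖ + ‖(ζ - l (x - p)) • v‖ := norm_add_le _ _
    _ ≤ ‖x - p‖ + (R + ‖l (x - p)‖) * ‖v‖ := by
        rw [norm_smul]
        have h2 : ‖ζ - l (x - p)‖ ≤ ‖ζ‖ + ‖l (x - p)‖ := norm_sub_le _ _
        gcongr
        linarith
    _ < δ := hx

/-- On a line through a point with `b ≠ 0` the zeros of `b` are isolated. -/
theorem line_iso {b : E → ℂ} {x v : E} {R : ℝ} {z₀ : ℂ} (hz₀ : z₀ ∈ ball (0 : ℂ) R)
    (hb : ∀ ζ ∈ ball (0 : ℂ) R, AnalyticAt ℂ b (x + (ζ - z₀) • v)) (hx : b x ≠ 0) :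
    ∀ z ∈ ball (0 : ℂ) R, ∀ᶠ ζ in 𝓝[≠] z, b (x + (ζ - z₀) • v) ≠ 0 := by
  have han : AnalyticOnNhd ℂ (fun ζ => b (x + (ζ - z₀) • v)) (ball (0 : ℂ) R) := fun ζ hζ =>
    AnalyticAt.comp (g := b) (f := fun ζ : ℂ => x + (ζ - z₀) • v) (hb ζ hζ)
      (analyticAt_const.add ((analyticAt_id.sub analyticAt_const).smul analyticAt_const))
  intro z hz
  rcases (han z hz).eventually_eq_zero_or_eventually_ne_zero with h | h
  · exfalso
    have h1 := han.eqOn_zero_of_preconnected_of_eventuallyEq_zero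
      (convex_ball (0 : ℂ) R).isPreconnected hz h hz₀
    apply hx
    simpa using h1
  · exact h

/-- Riemann's extension theorem near a point. -/
theorem riemann_at [FiniteDimensional ℂ E] [CompleteSpace G] {b : E → ℂ} {f : E → G} {p : E}
    {M : ℝ} (hb : AnalyticAt ℂ b p) (hb0 : ∃ᶠ x in 𝓝 p, b x ≠ 0)
    (hf : ∀ᶠ x in 𝓝 p, b x ≠ 0 → AnalyticAt ℂ f x ∧ ‖f x‖ ≤ M) :
    ∃ g : E → G, AnalyticAt ℂ g p ∧ ∀ᶠ x in 𝓝 p, b x ≠ 0 → g x = f x := by
  by_cases hbp : b p = 0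
  swap
  · exact ⟨f, (hf.self_of_nhds hbp).1, Filter.Eventually.of_forall fun _ _ => rfl⟩
  obtain ⟨δ, hδ, hball⟩ := Metric.eventually_nhds_iff_ball.1 (hb.eventually_analyticAt.and hf)
  obtain ⟨x₀, hx₀, hx₀b⟩ := (hb0.and_eventually (ball_mem_nhds p hδ)).exists
  set v := x₀ - p with hv
  have hv0 : v ≠ 0 := by
    intro h
    rw [hv, sub_eq_zero] at h
    exact hx₀ (h ▸ hbp)
  have hvn : 0 < ‖v‖ := norm_pos_iff.2 hv0
  obtain ⟨l, hl⟩ := SeparatingDual.exists_eq_one (R := ℂ) hv0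
  -- the zeros on the line through `p` are isolated
  have hiso0 : ∀ᶠ ζ in 𝓝[≠] (0 : ℂ), b (p + ζ • v) ≠ 0 := by
    have h1 : ∀ ζ ∈ ball (0 : ℂ) (δ / ‖v‖), AnalyticAt ℂ b (x₀ + (ζ - 1) • v) := by
      intro ζ hζ
      refine (hball _ ?_).1
      rw [mem_ball_zero_iff, lt_div_iff₀ hvn] at hζ
      rw [mem_ball_iff_norm]
      have h2 : x₀ + (ζ - 1) • v - p = ζ • v := by rw [sub_smul, one_smul, hv]; abel
      rw [h2, norm_smul]
      exact hζ
    have h3 := line_iso (b := b) (x := x₀) (v := v) (R := δ / ‖v‖) (z₀ := 1) (by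
      rw [mem_ball_zero_iff, norm_one, lt_div_iff₀ hvn, one_mul, hv]
      exact mem_ball_iff_norm.1 hx₀b) h1 hx₀ 0 (mem_ball_self (by positivity))
    filter_upwards [h3] with ζ hζ
    have h4 : x₀ + (ζ - 1) • v = p + ζ • v := by rw [sub_smul, one_smul, hv]; abel
    rwa [h4] at hζ
  obtain ⟨ε, hε, hne⟩ := Metric.eventually_nhds_iff_ball.1 (eventually_nhdsWithin_iff.1 hiso0)
  obtain ⟨r, hr, hrε, hrδ⟩ : ∃ r : ℝ, 0 < r ∧ r < ε ∧ 2 * r * ‖v‖ < δ := by
    refine ⟨min (ε / 2) (δ / (4 * ‖v‖)), by positivity, ?_, ?_⟩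
    · exact (min_le_left _ _).trans_lt (by linarith)
    · have h1 : min (ε / 2) (δ / (4 * ‖v‖)) ≤ δ / (4 * ‖v‖) := min_le_right _ _
      calc 2 * min (ε / 2) (δ / (4 * ‖v‖)) * ‖v‖ ≤ 2 * (δ / (4 * ‖v‖)) * ‖v‖ := by gcongr
        _ = δ / 2 := by field_simp; norm_num
        _ < δ := by linarith
  have hsph : ∀ ζ ∈ sphere (0 : ℂ) r, b (p + ζ • v) ≠ 0 ∧ p + ζ • v ∈ ball p δ := by
    intro ζ hζ
    rw [mem_sphere_zero_iff_norm] at hζ
    refine ⟨hne ζ (by rw [mem_ball_zero_iff, hζ]; exact hrε) ?_, ?_⟩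
    · rintro rfl
      rw [norm_zero] at hζ
      exact hr.ne hζ
    · rw [mem_ball_iff_norm, add_sub_cancel_left, norm_smul, hζ]
      nlinarith
  refine ⟨cx f p v l r, cx_analyticAt hr fun ζ hζ =>
    ((hball _ (hsph ζ hζ).2).2 (hsph ζ hζ).1).1, ?_⟩
  have hl0 : ∀ᶠ x in 𝓝 p, ‖l (x - p)‖ < r := by
    have hc : ContinuousAt (fun x => ‖l (x - p)‖) p := by fun_prop
    apply hc.eventually_lt_const
    simpa using hr
  have hcomp : ∀ᶠ x in 𝓝 p, ∀ ζ ∈ sphere (0 : ℂ) r, b (x + (ζ - l (x - p)) • v) ≠ 0 := by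
    apply (isCompact_sphere (0 : ℂ) r).eventually_forall_of_forall_eventually
    intro ζ hζ
    have hc : ContinuousAt (fun q : E × ℂ => b (q.1 + (q.2 - l (q.1 - p)) • v)) (p, ζ) := by
      refine ContinuousAt.comp (g := b) (f := fun q : E × ℂ => q.1 + (q.2 - l (q.1 - p)) • v) ?_
        (by fun_prop)
      simpa using (hball _ (hsph ζ hζ).2).1.continuousAt
    exact hc.eventually_ne (by simpa using (hsph ζ hζ).1)
  filter_upwards [line_near l hrδ, hl0, hcomp] with x hx hxl hxc hbx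
  have hin : l (x - p) ∈ ball (0 : ℂ) (2 * r) := by
    rw [mem_ball_zero_iff]; linarith
  have haff : ∀ z : ℂ, DifferentiableAt ℂ (fun ζ : ℂ => x + (ζ - l (x - p)) • v) z := fun z => by
    fun_prop
  obtain ⟨g, hg, hgφ⟩ := riemann_one (W := ball (0 : ℂ) (2 * r)) isOpen_ball
    (β := fun ζ => b (x + (ζ - l (x - p)) • v)) (φ := fun ζ => f (x + (ζ - l (x - p)) • v))
    (M := M) (line_iso hin (fun ζ hζ => (hball _ (hx ζ hζ)).1) hbx)
    (fun z hz hbz => DifferentiableAt.comp (g := f)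
      (f := fun ζ : ℂ => x + (ζ - l (x - p)) • v) z
      ((hball _ (hx z hz)).2 hbz).1.differentiableAt (haff z))
    (fun z hz hbz => ((hball _ (hx z hz)).2 hbz).2)
  have hsub : closure (ball (0 : ℂ) r) ⊆ ball (0 : ℂ) (2 * r) :=
    closure_ball_subset_closedBall.trans (closedBall_subset_ball (by linarith))
  rw [cx_eq hxl (hg.mono hsub).diffContOnCl fun ζ hζ => ?_]
  · rw [hgφ _ hin (by simpa using hbx)]
    simp
  · exact (hgφ ζ (closedBall_subset_ball (by linarith) (sphere_subset_closedBall hζ))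
      (hxc ζ hζ)).symm

/-- An analytic function which is not zero near `p` is not zero near any point close to `p`. -/
theorem freq_near [CompleteSpace G] {f : E → G} {p : E} (hf : AnalyticAt ℂ f p)
    (hf0 : ∃ᶠ x in 𝓝 p, f x ≠ 0) : ∀ᶠ x in 𝓝 p, ∃ᶠ y in 𝓝 x, f y ≠ 0 := by
  obtain ⟨ε, hε, hb⟩ := Metric.eventually_nhds_iff_ball.1 hf.eventually_analyticAt
  filter_upwards [ball_mem_nhds p hε] with x hx hcon
  have h1 : f =ᶠ[𝓝 x] 0 := hcon.mono fun y hy => not_not.1 hy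
  have h2 := AnalyticOnNhd.eqOn_zero_of_preconnected_of_eventuallyEq_zero
    (U := ball p ε) hb (convex_ball p ε).isPreconnected hx h1
  obtain ⟨y, hy, hyb⟩ := (hf0.and_eventually (ball_mem_nhds p hε)).exists
  exact hy (h2 hyb)

/-- Riemann's extension theorem near a point, another form. -/
theorem riemann_loc [FiniteDimensional ℂ E] [CompleteSpace G] {b : E → ℂ} {f : E → G} {p : E}
    (hb : AnalyticAt ℂ b p) (hne : ¬ ∀ᶠ x in 𝓝 p, b x = 0)
    (hf : ∀ᶠ x in 𝓝 p, b x ≠ 0 → AnalyticAt ℂ f x)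
    (hbd : ∃ C : ℝ, ∀ᶠ x in 𝓝 p, b x ≠ 0 → ‖f x‖ ≤ C) :
    ∃ g : E → G, AnalyticAt ℂ g p ∧ ∀ᶠ x in 𝓝 p, b x ≠ 0 → g x = f x := by
  obtain ⟨M, hM⟩ := hbd
  refine riemann_at (M := M) hb (not_eventually.1 hne) ?_
  filter_upwards [hf, hM] with x h1 h2 h3
  exact ⟨h1 h3, h2 h3⟩

/-- Gluing of local extensions. -/
theorem glue [CompleteSpace G] {U : Set E} (hU : IsOpen U) {b : E → ℂ} {f : E → G}
    (hb0 : ∀ p ∈ U, ∃ᶠ x in 𝓝 p, b x ≠ 0)
    (h : ∀ p ∈ U, ∃ g : E → G, AnalyticAt ℂ g p ∧ ∀ᶠ x in 𝓝 p, b x ≠ 0 → g x = f x) :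
    ∃ g : E → G, AnalyticOnNhd ℂ g U ∧ ∀ x ∈ U, b x ≠ 0 → g x = f x := by
  classical
  choose! h hh using h
  refine ⟨fun p => h p p, fun p hp => ?_, fun x hx hbx => (hh x hx).2.self_of_nhds hbx⟩
  refine (hh p hp).1.congr ?_
  filter_upwards [(hh p hp).1.eventually_analyticAt, (hh p hp).2.eventually_nhds,
    hU.mem_nhds hp] with x hx1 hx2 hxU
  refine eq_of_frequently hx1.continuousAt (hh x hxU).1.continuousAt ?_
  refine ((hb0 x hxU).and_eventually (hx2.and (hh x hxU).2)).mono ?_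
  rintro y ⟨hy, hy1, hy2⟩
  rw [hy1 hy, hy2 hy]

/-- **Riemann's extension theorem.** -/
theorem riemann [FiniteDimensional ℂ E] [CompleteSpace G] {U : Set E} (hU : IsOpen U) {b : E → ℂ}
    {f : E → G} (hb : AnalyticOnNhd ℂ b U) (hb0 : ∀ p ∈ U, ∃ᶠ x in 𝓝 p, b x ≠ 0)
    (hf : ∀ x ∈ U, b x ≠ 0 → AnalyticAt ℂ f x)
    (hM : ∀ p ∈ U, ∃ M : ℝ, ∀ᶠ x in 𝓝 p, b x ≠ 0 → ‖f x‖ ≤ M) :
    ∃ g : E → G, AnalyticOnNhd ℂ g U ∧ ∀ x ∈ U, b x ≠ 0 → g x = f x := by
  refine glue hU hb0 fun p hp => ?_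
  obtain ⟨M, hM⟩ := hM p hp
  refine riemann_at (M := M) (hb p hp) (hb0 p hp) ?_
  filter_upwards [hM, hU.mem_nhds hp] with x hx hxU hbx
  exact ⟨hf x hxU hbx, hx hbx⟩

/-- Extension across a set which is avoided on a dense set of parallel lines: `F` is analytic on
the circle of radius `r` in the line through `p`, and for all `x` in a dense set near `p` the
restriction of `F` to the line through `x` agrees on the circle and at `x` with a function which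
is holomorphic on the disc. -/
theorem cauchy_ext [FiniteDimensional ℂ E] [CompleteSpace G] {F : E → G} {p v : E}
    {l : E →L[ℂ] ℂ} {r : ℝ} (hr : 0 < r) (h : ∀ ζ ∈ sphere (0 : ℂ) r, AnalyticAt ℂ F (p + ζ • v))
    {D : E → Prop} (hD : ∀ᶠ x in 𝓝 p, ∃ᶠ y in 𝓝 x, D y)
    (hline : ∀ᶠ x in 𝓝 p, D x → ∃ g : ℂ → G, DiffContOnCl ℂ g (ball 0 r) ∧
      (∀ ζ ∈ sphere (0 : ℂ) r, F (x + (ζ - l (x - p)) • v) = g ζ) ∧ g (l (x - p)) = F x) :
    ∃ g : E → G, AnalyticAt ℂ g p ∧ ∀ᶠ x in 𝓝 p, ContinuousAt F x → g x = F x := by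
  have han := cx_analyticAt (l := l) hr h
  refine ⟨cx F p v l r, han, ?_⟩
  have hl0 : ∀ᶠ x in 𝓝 p, ‖l (x - p)‖ < r := by
    have hc : ContinuousAt (fun x => ‖l (x - p)‖) p := by fun_prop
    apply hc.eventually_lt_const
    simpa using hr
  have h1 : ∀ᶠ x in 𝓝 p, D x → cx F p v l r x = F x := by
    filter_upwards [hline, hl0] with x hx hxl hDx
    obtain ⟨g, hg, hs, hgx⟩ := hx hDx
    rw [cx_eq hxl hg hs, hgx]
  filter_upwards [h1.eventually_nhds, hD, han.eventually_analyticAt] with x hx1 hx2 hx3 hFx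
  refine eq_of_frequently hx3.continuousAt hFx ?_
  exact (hx2.and_eventually hx1).mono fun y hy => hy.2 hy.1

end Pool.Agent.KO.C
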