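import Pool.Agent.KO.C.Conn
import Pool.Agent.KO.C.Ext

/-!
# Project KO, several complex variables: functions on double covers

Hartogs' theorem for a point; functions on the double cover `y² = q x` that are analytic outside
of a point are of the form `f₀(x) + y f₁(x)`.
-/

set_option autoImplicit false

namespace Pool.Agent.KO.C

open Set Filter Topology

section

variable {n : ℕ} {i j : Fin n}

/-- The points with `x i ≠ p i` are dense. -/
theorem freq_coord (i : Fin n) (p x : Fin n → ℂ) : ∃ᶠ y in 𝓝 x, y i ≠ p i := by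
  have h1 : AnalyticOnNhd ℂ (fun x : Fin n → ℂ => x i - p i) univ := fun x _ =>
    ((ContinuousLinearMap.proj (R := ℂ) (φ := fun _ : Fin n => ℂ) i).analyticAt x).sub
      analyticAt_const
  have h2 := freq_ne_on h1 isPreconnected_univ ⟨p + Pi.single i 1, mem_univ _, by simp⟩ x
    (mem_univ x)
  exact h2.mono fun y hy => sub_ne_zero.1 hy

/-- Two functions that are continuous near `x` and agree near `x` outside of a coordinate line
agree near `x`. -/
theorem eq_off (i : Fin n) (p : Fin n → ℂ) {f g : (Fin n → ℂ) → ℂ} {x : Fin n → ℂ}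
    (hf : AnalyticAt ℂ f x) (hg : AnalyticAt ℂ g x) (h : ∀ᶠ z in 𝓝 x, z i ≠ p i → f z = g z) :
    ∀ᶠ z in 𝓝 x, f z = g z := by
  refine eq_of_closure (hf.eventually_analyticAt.mono fun z hz => hz.continuousAt)
    (hg.eventually_analyticAt.mono fun z hz => hz.continuousAt) ?_
  filter_upwards [h.eventually_nhds] with z hz
  exact ((freq_coord i p z).and_eventually hz).mono fun w hw => hw.2 hw.1

/-- Hartogs' theorem for a point. -/
theorem hartogs_point (hij : i ≠ j) {f : (Fin n → ℂ) → ℂ} {p : Fin n → ℂ}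
    (hf : ∀ᶠ x in 𝓝 p, x ≠ p → AnalyticAt ℂ f x) :
    ∃ g, AnalyticAt ℂ g p ∧ ∀ᶠ x in 𝓝 p, x ≠ p → g x = f x := by
  classical
  obtain ⟨R, hR, hfR⟩ := Metric.eventually_nhds_iff_ball.1 hf
  set v : Fin n → ℂ := Pi.single i 1 with hv
  have hvn : ‖v‖ = 1 := by rw [hv, Pi.norm_single, norm_one]
  set l : (Fin n → ℂ) →L[ℂ] ℂ := ContinuousLinearMap.proj (R := ℂ) (φ := fun _ : Fin n => ℂ) i
    with hl
  have hln : ∀ x, ‖l x‖ ≤ ‖x‖ := fun x => norm_le_pi_norm x i
  obtain ⟨g, hg, hgf⟩ := cauchy_ext (F := f) (p := p) (v := v) (l := l) (r := R / 2)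
    (by positivity) (by
      intro ζ hζ
      have h1 : ‖ζ‖ = R / 2 := by simpa using hζ
      refine hfR _ ?_ ?_
      · rw [mem_ball_iff_norm, add_sub_cancel_left, norm_smul, h1, hvn]
        linarith
      · intro h
        have h2 := congrArg (fun x => ‖x - p‖) h
        simp only [add_sub_cancel_left, sub_self, norm_zero] at h2
        rw [norm_smul, h1, hvn] at h2
        linarith)
    (D := fun x => x j ≠ p j) (Filter.Eventually.of_forall fun x => freq_coord j p x) (by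
      have h0 : ∀ᶠ x in 𝓝 p, x ∈ Metric.ball p (R / 4) :=
        Metric.ball_mem_nhds p (by positivity)
      filter_upwards [h0] with x hx hxj
      rw [mem_ball_iff_norm] at hx
      have hmem : ∀ ζ : ℂ, ‖ζ‖ ≤ R / 2 → AnalyticAt ℂ f (x + (ζ - l (x - p)) • v) := by
        intro ζ hζ
        refine hfR _ ?_ ?_
        · rw [mem_ball_iff_norm]
          have h1 : x + (ζ - l (x - p)) • v - p = (x - p) + (ζ - l (x - p)) • v := by abel
          rw [h1]
          have h2 := norm_add_le (x - p) ((ζ - l (x - p)) • v)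
          rw [norm_smul, hvn, mul_one] at h2
          have h3 := norm_sub_le ζ (l (x - p))
          have h4 := hln (x - p)
          linarith
        · intro h
          have h1 := congrFun h j
          rw [hv, Pi.add_apply, Pi.smul_apply, Pi.single_eq_of_ne hij.symm, smul_zero,
            add_zero] at h1
          exact hxj h1
      refine ⟨fun ζ => f (x + (ζ - l (x - p)) • v), ?_, fun ζ _ => rfl, by simp⟩
      have hd : DifferentiableOn ℂ (fun ζ => f (x + (ζ - l (x - p)) • v))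
          (Metric.closedBall 0 (R / 2)) := by
        intro ζ hζ
        have h1 : ‖ζ‖ ≤ R / 2 := by simpa using hζ
        have h2 : DifferentiableAt ℂ (fun ζ : ℂ => x + (ζ - l (x - p)) • v) ζ := by fun_prop
        exact ((hmem ζ h1).differentiableAt.comp ζ h2).differentiableWithinAt
      exact hd.diffContOnCl_ball subset_rfl)
  refine ⟨g, hg, ?_⟩
  filter_upwards [hgf, hf] with x hx1 hx2 hxp
  exact hx1 (hx2 hxp).continuousAt

/-- Extension across a point of functions that are locally analytic up to the zero set of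
another function. -/
theorem glue_point (hij : i ≠ j) {b f : (Fin n → ℂ) → ℂ} {p : Fin n → ℂ} (hb : AnalyticAt ℂ b p)
    (hne : ¬ ∀ᶠ x in 𝓝 p, b x = 0)
    (hf : ∀ᶠ x in 𝓝 p, x ≠ p → ∃ g, AnalyticAt ℂ g x ∧ ∀ᶠ z in 𝓝 x, b z ≠ 0 → f z = g z) :
    ∃ g, AnalyticAt ℂ g p ∧ ∀ᶠ x in 𝓝 p, x ≠ p → b x ≠ 0 → f x = g x := by
  classical
  have hch : ∀ x : Fin n → ℂ, ∃ g : (Fin n → ℂ) → ℂ,
      (∃ g, AnalyticAt ℂ g x ∧ ∀ᶠ z in 𝓝 x, b z ≠ 0 → f z = g z) →
        AnalyticAt ℂ g x ∧ ∀ᶠ z in 𝓝 x, b z ≠ 0 → f z = g z := by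
    intro x
    by_cases h : ∃ g, AnalyticAt ℂ g x ∧ ∀ᶠ z in 𝓝 x, b z ≠ 0 → f z = g z
    · obtain ⟨g, hg⟩ := h
      exact ⟨g, fun _ => hg⟩
    · exact ⟨f, fun h' => absurd h' h⟩
  choose g hg using hch
  have hfr := freq_ne hb hne
  have hkey : ∀ᶠ x in 𝓝 p, x ≠ p → ∀ᶠ z in 𝓝 x, g z z = g x z := by
    filter_upwards [hf.eventually_nhds, hfr.eventually_nhds] with x hx1 hx2 hxp
    have h1 := hg x (hx1.self_of_nhds hxp)
    have h2 : ∀ᶠ z in 𝓝 x, z ≠ p := isOpen_ne.mem_nhds hxp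
    filter_upwards [hx1, hx2.eventually_nhds, h2, h1.1.eventually_analyticAt,
      h1.2.eventually_nhds] with z hz1 h6 hz3 hz4 hz5
    have h3 := hg z (hz1 hz3)
    have h4 : ∀ᶠ y in 𝓝 z, ContinuousAt (g z) y :=
      h3.1.eventually_analyticAt.mono fun y hy => hy.continuousAt
    have h5 : ∀ᶠ y in 𝓝 z, ContinuousAt (g x) y :=
      hz4.eventually_analyticAt.mono fun y hy => hy.continuousAt
    refine (eq_of_closure h4 h5 ?_).self_of_nhds
    filter_upwards [h6, hz5.eventually_nhds, h3.2.eventually_nhds] with y hy1 hy2 hy3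
    exact (hy1.and_eventually (hy2.and hy3)).mono fun w hw => by
      rw [← hw.2.1 hw.1, ← hw.2.2 hw.1]
  obtain ⟨g0, hg0, h0⟩ := hartogs_point hij (f := fun x => g x x) (p := p) (by
    filter_upwards [hkey, hf] with x hx1 hx2 hxp
    have h1 := hg x (hx2 hxp)
    exact h1.1.congr ((hx1 hxp).mono fun z hz => hz.symm))
  refine ⟨g0, hg0, ?_⟩
  filter_upwards [h0, hf] with x hx1 hx2 hxp hbx
  rw [hx1 hxp]
  exact (hg x (hx2 hxp)).2.self_of_nhds hbx

/-- A square root. -/
noncomputable def sq (c : ℂ) : ℂ := c ^ (2 : ℂ)⁻¹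

theorem sq_sq (c : ℂ) : sq c ^ 2 = c := by
  have h := Complex.cpow_nat_inv_pow c (n := 2) (by norm_num)
  rw [Nat.cast_ofNat] at h
  exact h

theorem norm_sq_sq (c : ℂ) : ‖sq c‖ ^ 2 = ‖c‖ := by
  rw [← norm_pow, sq_sq]

/-- The local branch of the square root. -/
theorem branch {E : Type*} [NormedAddCommGroup E] [NormedSpace ℂ E] {q : E → ℂ} {x : E}
    (hq : AnalyticAt ℂ q x) (hx : q x ≠ 0) :
    ∃ σ : E → ℂ, AnalyticAt ℂ σ x ∧ σ x = sq (q x) ∧ ∀ z, σ z ^ 2 = q z := by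
  refine ⟨fun z => sq (q x) * sq (q z / q x), ?_, ?_, ?_⟩
  · have h1 : AnalyticAt ℂ (fun z => q z / q x) x := hq.div_const
    have h2 : AnalyticAt ℂ (fun z => sq (q z / q x)) x := by
      apply AnalyticAt.cpow h1 analyticAt_const
      rw [div_self hx]
      exact Complex.one_mem_slitPlane
    exact analyticAt_const.mul h2
  · show sq (q x) * sq (q x / q x) = sq (q x)
    rw [div_self hx]
    simp [sq]
  · intro z
    show (sq (q x) * sq (q z / q x)) ^ 2 = q z
    rw [mul_pow, sq_sq, sq_sq]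
    field_simp

theorem cont_sq {X : Type*} [TopologicalSpace X] {q : X → ℂ} {x : X} (hq : ContinuousAt q x)
    (hx : q x = 0) : Tendsto (fun z => sq (q z)) (𝓝 x) (𝓝 0) := by
  rw [tendsto_zero_iff_norm_tendsto_zero]
  have h1 : Tendsto (fun z => ‖q z‖) (𝓝 x) (𝓝 0) := by
    have := hq.norm
    rw [ContinuousAt, hx, norm_zero] at this
    exact this
  have h2 : (fun z => ‖sq (q z)‖) = fun z => Real.sqrt ‖q z‖ := by
    ext z
    rw [← norm_sq_sq (q z), Real.sqrt_sq (norm_nonneg _)]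
  rw [h2]
  have h3 := h1.sqrt
  rwa [Real.sqrt_zero] at h3

theorem two_roots {c y : ℂ} (h : y ^ 2 = c) : y = sq c ∨ y = -sq c := by
  have h1 : y ^ 2 = sq c ^ 2 := by rw [sq_sq, h]
  exact sq_eq_sq_iff_eq_or_eq_neg.1 h1

/-- Functions on the double cover `y² = q x`, analytic outside of a point `(p, 0)`, are of the
form `f₀(x) + y f₁(x)`. -/
theorem dcov (hij : i ≠ j) {q : (Fin n → ℂ) → ℂ} {p : Fin n → ℂ} (hq : AnalyticAt ℂ q p)
    (hqp : q p = 0) {F : (Fin n → ℂ) × ℂ → ℂ}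
    (hF : ∀ᶠ P in 𝓝 (p, (0 : ℂ)), P ≠ (p, 0) → P.2 ^ 2 = q P.1 →
      ∃ G : (Fin n → ℂ) × ℂ → ℂ, AnalyticAt ℂ G P ∧ ∀ᶠ z in 𝓝 P, z.2 ^ 2 = q z.1 → F z = G z) :
    ∃ f0 f1 : (Fin n → ℂ) → ℂ, AnalyticAt ℂ f0 p ∧ AnalyticAt ℂ f1 p ∧
      ∀ᶠ P in 𝓝 (p, (0 : ℂ)), P ≠ (p, 0) → P.2 ^ 2 = q P.1 → F P = f0 P.1 + P.2 * f1 P.1 := by
  -- good points
  have hs0 : Tendsto (fun x => (x, sq (q x))) (𝓝 p) (𝓝 (p, (0 : ℂ))) :=
    tendsto_id.prodMk_nhds (cont_sq hq.continuousAt hqp)
  have hs1 : Tendsto (fun x => (x, -sq (q x))) (𝓝 p) (𝓝 (p, (0 : ℂ))) := by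
    have h1 := (cont_sq hq.continuousAt hqp).neg
    rw [neg_zero] at h1
    exact tendsto_id.prodMk_nhds h1
  have hall : ∀ᶠ x in 𝓝 p, x ≠ p → ∀ y : ℂ, y ^ 2 = q x →
      ∃ G : (Fin n → ℂ) × ℂ → ℂ, AnalyticAt ℂ G (x, y) ∧
        ∀ᶠ z in 𝓝 (x, y), z.2 ^ 2 = q z.1 → F z = G z := by
    filter_upwards [hs0.eventually hF, hs1.eventually hF] with x hx0 hx1 hxp y hy
    rcases two_roots hy with h | h
    · subst h
      exact hx0 (fun h => hxp (congrArg Prod.fst h)) hy
    · subst h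
      exact hx1 (fun h => hxp (congrArg Prod.fst h)) hy
  set f0 : (Fin n → ℂ) → ℂ := fun x => (F (x, sq (q x)) + F (x, -sq (q x))) / 2 with hf0
  set f1 : (Fin n → ℂ) → ℂ := fun x => (F (x, sq (q x)) - F (x, -sq (q x))) / (2 * sq (q x))
    with hf1
  have hsym0 : ∀ x y, y ^ 2 = q x → f0 x = (F (x, y) + F (x, -y)) / 2 := by
    intro x y hy
    rcases two_roots hy with h | h
    · rw [h]
    · rw [h, neg_neg, hf0]
      ring
  have hsym1 : ∀ x y, y ^ 2 = q x → f1 x = (F (x, y) - F (x, -y)) / (2 * y) := by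
    intro x y hy
    rcases two_roots hy with h | h
    · rw [h]
    · rw [h, neg_neg, hf1]
      simp only
      rw [mul_neg, div_neg, ← neg_div]
      congr 1
      ring
  by_cases hz : ∀ᶠ x in 𝓝 p, q x = 0
  · -- the degenerate case
    obtain ⟨g0, hg0, h0⟩ := hartogs_point hij (f := fun x => F (x, 0)) (p := p) (by
      filter_upwards [hall, hz.eventually_nhds] with x hx1 hx2 hxp
      obtain ⟨G, hG, hGF⟩ := hx1 hxp 0 (by rw [hx2.self_of_nhds]; simp)
      have hι : AnalyticAt ℂ (fun z : Fin n → ℂ => (z, (0 : ℂ))) x :=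
        analyticAt_id.prod analyticAt_const
      have h1 : AnalyticAt ℂ (fun z : Fin n → ℂ => G (z, 0)) x :=
        AnalyticAt.comp (g := G) (f := fun z : Fin n → ℂ => (z, (0 : ℂ))) hG hι
      refine h1.congr ?_
      have h2 := hι.continuousAt.eventually hGF
      filter_upwards [h2, hx2] with z hz1 hz2
      exact (hz1 (by simp [hz2])).symm)
    refine ⟨g0, fun _ => 0, hg0, analyticAt_const, ?_⟩
    have hfst : Tendsto (Prod.fst : (Fin n → ℂ) × ℂ → _) (𝓝 (p, 0)) (𝓝 p) := continuousAt_fst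
    filter_upwards [hfst.eventually h0, hfst.eventually hz] with P hP1 hP2 hPp hPq
    have hy : P.2 = 0 := by
      rw [hP2] at hPq
      exact pow_eq_zero_iff (two_ne_zero) |>.1 hPq
    have hx : P.1 ≠ p := fun h => hPp (Prod.ext h hy)
    rw [mul_zero, add_zero, hP1 hx, ← hy]
  · have hfr := freq_ne hq hz
    -- analytic outside of the zeros of q
    have han : ∀ᶠ x in 𝓝 p, x ≠ p → q x ≠ 0 → AnalyticAt ℂ f0 x ∧ AnalyticAt ℂ f1 x := by
      filter_upwards [hall, hq.eventually_analyticAt] with x hx1 hqx hxp hx0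
      obtain ⟨σ, hσ, hσx, hσ2⟩ := branch hqx hx0
      have hσ0 : σ x ≠ 0 := by
        intro h
        have := hσ2 x
        rw [h] at this
        apply hx0
        rw [← this]
        norm_num
      obtain ⟨G1, hG1, hGF1⟩ := hx1 hxp (σ x) (hσ2 x)
      obtain ⟨G2, hG2, hGF2⟩ := hx1 hxp (-σ x) (by rw [neg_sq]; exact hσ2 x)
      have hι1 : AnalyticAt ℂ (fun z : Fin n → ℂ => (z, σ z)) x := analyticAt_id.prod hσ
      have hι2 : AnalyticAt ℂ (fun z : Fin n → ℂ => (z, -σ z)) x := analyticAt_id.prod hσ.neg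
      have h1 : AnalyticAt ℂ (fun z : Fin n → ℂ => F (z, σ z)) x :=
        (AnalyticAt.comp (g := G1) (f := fun z : Fin n → ℂ => (z, σ z)) hG1 hι1).congr
          ((hι1.continuousAt.eventually hGF1).mono fun z hz => (hz (hσ2 z)).symm)
      have h2 : AnalyticAt ℂ (fun z : Fin n → ℂ => F (z, -σ z)) x :=
        (AnalyticAt.comp (g := G2) (f := fun z : Fin n → ℂ => (z, -σ z)) hG2 hι2).congr
          ((hι2.continuousAt.eventually hGF2).mono fun z hz =>
            (hz (by rw [neg_sq]; exact hσ2 z)).symm)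
      constructor
      · refine ((h1.add h2).div (analyticAt_const (v := (2 : ℂ))) two_ne_zero).congr ?_
        exact Filter.Eventually.of_forall fun z => (hsym0 z (σ z) (hσ2 z)).symm
      · refine ((h1.sub h2).div (analyticAt_const.mul hσ) (mul_ne_zero two_ne_zero hσ0)).congr ?_
        exact Filter.Eventually.of_forall fun z => (hsym1 z (σ z) (hσ2 z)).symm
    -- near the zeros of q
    have hbd : ∀ᶠ x in 𝓝 p, x ≠ p → q x = 0 →
        (∃ C : ℝ, ∀ᶠ z in 𝓝 x, q z ≠ 0 → ‖f0 z‖ ≤ C) ∧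
        ∃ C : ℝ, ∀ᶠ z in 𝓝 x, q z ≠ 0 → ‖f1 z‖ ≤ C := by
      filter_upwards [hall, hq.eventually_analyticAt] with x hx1 hqx hxp hx0
      obtain ⟨G, hG, hGF⟩ := hx1 hxp 0 (by rw [hx0]; simp)
      have ht0 : Tendsto (fun z => (z, sq (q z))) (𝓝 x) (𝓝 (x, (0 : ℂ))) :=
        tendsto_id.prodMk_nhds (cont_sq hqx.continuousAt hx0)
      have ht1 : Tendsto (fun z => (z, -sq (q z))) (𝓝 x) (𝓝 (x, (0 : ℂ))) := by
        have h1 := (cont_sq hqx.continuousAt hx0).neg
        rw [neg_zero] at h1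
        exact tendsto_id.prodMk_nhds h1
      have hGb : ∀ᶠ z in 𝓝 (x, (0 : ℂ)), ‖G z‖ ≤ ‖G (x, 0)‖ + 1 := by
        have h1 := hG.continuousAt.norm
        exact (h1.eventually (gt_mem_nhds (lt_add_one ‖G (x, 0)‖))).mono fun z hz => hz.le
      obtain ⟨K, U, hU, hLip⟩ := hG.hasStrictFDerivAt.exists_lipschitzOnWith
      constructor
      · refine ⟨‖G (x, 0)‖ + 1, ?_⟩
        filter_upwards [ht0.eventually hGF, ht1.eventually hGF, ht0.eventually hGb,
          ht1.eventually hGb] with z hz1 hz2 hz3 hz4 _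
        rw [hf0]
        simp only
        rw [hz1 (sq_sq _), hz2 (by simp only [neg_sq]; exact sq_sq _), norm_div]
        have h1 := norm_add_le (G (z, sq (q z))) (G (z, -sq (q z)))
        have h2 : ‖(2 : ℂ)‖ = 2 := by norm_num
        rw [h2, div_le_iff₀ two_pos]
        linarith
      · refine ⟨K, ?_⟩
        filter_upwards [ht0.eventually hGF, ht1.eventually hGF, ht0.eventually hU,
          ht1.eventually hU] with z hz1 hz2 hz3 hz4 hqz
        have hsz : sq (q z) ≠ 0 := by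
          intro h
          apply hqz
          rw [← sq_sq (q z), h]
          norm_num
        rw [hf1]
        simp only
        rw [hz1 (sq_sq _), hz2 (by simp only [neg_sq]; exact sq_sq _), norm_div,
          div_le_iff₀ (norm_pos_iff.2 (mul_ne_zero two_ne_zero hsz))]
        have h1 := hLip.dist_le_mul _ hz3 _ hz4
        rw [dist_eq_norm, dist_eq_norm] at h1
        refine h1.trans (mul_le_mul_of_nonneg_left ?_ K.2)
        have h2 : (z, sq (q z)) - (z, -sq (q z)) = ((0 : Fin n → ℂ), 2 * sq (q z)) := by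
          ext <;> simp [two_mul]
        rw [h2, Prod.norm_def, norm_zero]
        exact max_le (norm_nonneg _) le_rfl
    have hloc : ∀ f : (Fin n → ℂ) → ℂ,
        (∀ᶠ x in 𝓝 p, x ≠ p → q x ≠ 0 → AnalyticAt ℂ f x) →
        (∀ᶠ x in 𝓝 p, x ≠ p → q x = 0 → ∃ C : ℝ, ∀ᶠ z in 𝓝 x, q z ≠ 0 → ‖f z‖ ≤ C) →
        ∃ g, AnalyticAt ℂ g p ∧ ∀ᶠ x in 𝓝 p, x ≠ p → q x ≠ 0 → f x = g x := by
      intro f hfa hfb
      refine glue_point hij hq hz ?_
      filter_upwards [hfa.eventually_nhds, hfb, hq.eventually_analyticAt, hfr] with x hx1 hx2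
        hqx hx4 hxp
      by_cases hx0 : q x = 0
      · obtain ⟨g, hg, hgf⟩ := riemann_loc hqx (fun h => hx4 (h.mono fun z hz => not_not.2 hz))
          (f := f) (by
            have h2 : ∀ᶠ z in 𝓝 x, z ≠ p := isOpen_ne.mem_nhds hxp
            filter_upwards [hx1, h2] with z hz1 hz2 hz3
            exact hz1 hz2 hz3) (hx2 hxp hx0)
        exact ⟨g, hg, hgf.mono fun z hz h => (hz h).symm⟩
      · exact ⟨f, hx1.self_of_nhds hxp hx0, Filter.Eventually.of_forall fun z _ => rfl⟩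
    obtain ⟨g0, hg0, h0⟩ := hloc f0 (han.mono fun x hx h1 h2 => (hx h1 h2).1)
      (hbd.mono fun x hx h1 h2 => (hx h1 h2).1)
    obtain ⟨g1, hg1, h1⟩ := hloc f1 (han.mono fun x hx h1 h2 => (hx h1 h2).2)
      (hbd.mono fun x hx h1 h2 => (hx h1 h2).2)
    refine ⟨g0, g1, hg0, hg1, ?_⟩
    have hfst : Tendsto (Prod.fst : (Fin n → ℂ) × ℂ → _) (𝓝 (p, 0)) (𝓝 p) := continuousAt_fst
    have hval : ∀ x y, q x ≠ 0 → y ^ 2 = q x → F (x, y) = f0 x + y * f1 x := by
      intro x y hx hy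
      have hy0 : y ≠ 0 := by
        rintro rfl
        apply hx
        rw [← hy]
        norm_num
      rw [hsym0 x y hy, hsym1 x y hy]
      field_simp
      ring
    filter_upwards [hfst.eventually h0.eventually_nhds, hfst.eventually h1.eventually_nhds,
      hfst.eventually hall, hfst.eventually hq.eventually_analyticAt, hfst.eventually hfr,
      hfst.eventually hg0.eventually_analyticAt, hfst.eventually hg1.eventually_analyticAt] with P
      hP0 hP1 hP2 hP3 hP4 hP5 hP6 hPp hPq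
    obtain ⟨x, y⟩ := P
    simp only at hP0 hP1 hP2 hP3 hP4 hP5 hP6 hPq ⊢
    by_cases hx0 : q x = 0
    · have hy : y = 0 := by
        rw [hx0] at hPq
        exact pow_eq_zero_iff (two_ne_zero) |>.1 hPq
      subst hy
      have hxp : x ≠ p := fun h => hPp (by rw [h])
      obtain ⟨G, hG, hGF⟩ := hP2 hxp 0 hPq
      rw [hGF.self_of_nhds hPq, zero_mul, add_zero]
      have hsc : Tendsto (fun z => sq (q z)) (𝓝 x) (𝓝 0) := cont_sq hP3.continuousAt hx0
      have ht0 : Tendsto (fun z => (z, sq (q z))) (𝓝 x) (𝓝 (x, (0 : ℂ))) :=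
        tendsto_id.prodMk_nhds hsc
      have hlim : Tendsto (fun z => G (z, sq (q z)) - (g0 z + sq (q z) * g1 z)) (𝓝 x)
          (𝓝 (G (x, 0) - (g0 x + 0 * g1 x))) :=
        (hG.continuousAt.tendsto.comp ht0).sub
          (hP5.continuousAt.tendsto.add (hsc.mul hP6.continuousAt.tendsto))
      have hfreq : ∃ᶠ z in 𝓝 x, G (z, sq (q z)) - (g0 z + sq (q z) * g1 z) = 0 := by
        have h2 : ∀ᶠ z in 𝓝 x, z ≠ p := isOpen_ne.mem_nhds hxp
        have h3 := ((hP0.and hP1).and (h2.and (ht0.eventually hGF)))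
        refine (hP4.and_eventually h3).mono ?_
        rintro z ⟨hz1, ⟨hz2, hz3⟩, hz4, hz5⟩
        rw [← hz5 (sq_sq _), ← hz2 hz4 hz1, ← hz3 hz4 hz1, hval z _ hz1 (sq_sq _)]
        ring
      have hzero : G (x, 0) - (g0 x + 0 * g1 x) = 0 := by
        by_contra hcon
        exact hfreq ((hlim.eventually (isOpen_ne.mem_nhds hcon)).mono fun z hz => hz)
      have := sub_eq_zero.1 hzero
      rw [this]
      ring
    · have hxp : x ≠ p := by
        rintro rfl
        exact hx0 hqp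
      rw [← hP0.self_of_nhds hxp hx0, ← hP1.self_of_nhds hxp hx0]
      exact hval x y hx0 hPq

end

end Pool.Agent.KO.C
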