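import Pool.Agent.KO.C.Ext
import Pool.Agent.KO.C.Iden
import Pool.Agent.KO.C.Inv

/-!
# Project KO, block C: poles of quotients of analytic functions (row C3)
-/

set_option autoImplicit false
open Set Filter Topology Metric

namespace Pool.Agent.KO.C

variable {E : Type*} [NormedAddCommGroup E] [NormedSpace ℂ E]

/-- A linear form is not zero near any point. -/
theorem lin_freq {q v : E} {l : E →L[ℂ] ℂ} (hl : l v = 1) (x : E) :
    ∃ᶠ y in 𝓝 x, l (y - q) ≠ 0 := by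
  intro hcon
  have hc : Tendsto (fun ζ : ℂ => x + ζ • v) (𝓝 0) (𝓝 x) := by
    have : ContinuousAt (fun ζ : ℂ => x + ζ • v) 0 := by fun_prop
    simpa [ContinuousAt] using this
  have h1 := hc.eventually hcon
  obtain ⟨ε, hε, hb⟩ := Metric.eventually_nhds_iff_ball.1 h1
  have h2 : ∀ ζ ∈ ball (0 : ℂ) ε, l (x - q) + ζ = 0 := by
    intro ζ hζ
    have h3 := not_not.1 (hb ζ hζ)
    rw [← h3]
    simp only [map_sub, map_add, map_smul, hl, smul_eq_mul, mul_one]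
    ring
  have h3 := h2 0 (mem_ball_self hε)
  have h4 := h2 ((ε / 2 : ℝ) : ℂ) (by
    rw [mem_ball_zero_iff, Complex.norm_real, Real.norm_of_nonneg (by positivity)]
    linarith)
  rw [add_zero] at h3
  rw [h3, zero_add] at h4
  have h5 : ε / 2 = 0 := by exact_mod_cast h4
  linarith

theorem lin_an (l : E →L[ℂ] ℂ) (q x : E) : AnalyticAt ℂ (fun y => l (y - q)) x :=
  (l.analyticAt _).comp (analyticAt_id.sub analyticAt_const)

/-- Division by a linear form. -/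
theorem div_lin [FiniteDimensional ℂ E] {A : E → ℂ} {q v : E} {l : E →L[ℂ] ℂ} (hl : l v = 1)
    (hA : AnalyticAt ℂ A q) (h0 : ∀ᶠ x in 𝓝 q, l (x - q) = 0 → A x = 0) :
    ∃ A' : E → ℂ, AnalyticAt ℂ A' q ∧ ∀ᶠ x in 𝓝 q, A x = l (x - q) * A' x := by
  obtain ⟨K, s, hs, hK⟩ := hA.hasStrictFDerivAt.exists_lipschitzOnWith
  have hπ : Tendsto (fun x => x - l (x - q) • v) (𝓝 q) (𝓝 q) := by
    have : ContinuousAt (fun x => x - l (x - q) • v) q := by fun_prop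
    simpa [ContinuousAt] using this
  have hbd : ∀ᶠ x in 𝓝 q, l (x - q) ≠ 0 →
      AnalyticAt ℂ (fun x => A x / l (x - q)) x ∧ ‖A x / l (x - q)‖ ≤ K * ‖v‖ := by
    filter_upwards [hA.eventually_analyticAt, hs, hπ.eventually hs, hπ.eventually h0]
      with x hx hxs hxs' hx0 hlx
    refine ⟨hx.div (lin_an l q x) hlx, ?_⟩
    have h1 : A (x - l (x - q) • v) = 0 := by
      apply hx0
      simp only [map_sub, map_smul, hl, smul_eq_mul, mul_one]
      ring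
    have h2 := hK.dist_le_mul x hxs _ hxs'
    rw [dist_eq_norm, dist_eq_norm, h1, sub_zero, sub_sub_cancel, norm_smul] at h2
    rw [norm_div, div_le_iff₀ (norm_pos_iff.2 hlx)]
    linarith
  obtain ⟨g, hg, hgA⟩ := riemann_at (lin_an l q q) (lin_freq hl q) hbd
  refine ⟨g, hg, ?_⟩
  filter_upwards [hgA, h0] with x hx hx0
  by_cases hlx : l (x - q) = 0
  · rw [hx0 hlx, hlx, zero_mul]
  · rw [hx hlx]
    field_simp

/-- The generic order along the hyperplane `l = 0`. -/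
theorem gen_order [FiniteDimensional ℂ E] {q v : E} {l : E →L[ℂ] ℂ} (hl : l v = 1) {w : E}
    (n : ℕ) : ∀ A : E → ℂ, AnalyticAt ℂ A q →
      analyticOrderAt (fun ζ : ℂ => A (q + ζ • w)) 0 = n →
      ∃ (s : ℕ) (A1 : E → ℂ), AnalyticAt ℂ A1 q ∧ (∀ᶠ x in 𝓝 q, A x = l (x - q) ^ s * A1 x) ∧
        ∃ᶠ x in 𝓝 q, l (x - q) = 0 ∧ A1 x ≠ 0 := by
  induction n using Nat.strong_induction_on with
  | _ n ih =>
    intro A hA hn
    by_cases h : ∃ᶠ x in 𝓝 q, l (x - q) = 0 ∧ A x ≠ 0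
    · exact ⟨0, A, hA, Filter.Eventually.of_forall fun x => by simp, h⟩
    rw [not_frequently] at h
    obtain ⟨A', hA', hAA'⟩ := div_lin hl hA (h.mono fun x hx h1 => by
      by_contra h2
      exact hx ⟨h1, h2⟩)
    have hq : Tendsto (fun ζ : ℂ => q + ζ • w) (𝓝 0) (𝓝 q) := by
      have : ContinuousAt (fun ζ : ℂ => q + ζ • w) 0 := by fun_prop
      simpa [ContinuousAt] using this
    have hA'l : AnalyticAt ℂ (fun ζ : ℂ => A' (q + ζ • w)) 0 :=
      AnalyticAt.comp (g := A') (f := fun ζ : ℂ => q + ζ • w) (by simpa using hA')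
        (analyticAt_const.add (analyticAt_id.smul analyticAt_const))
    have hll : AnalyticAt ℂ (fun ζ : ℂ => ζ * l w) 0 := analyticAt_id.mul analyticAt_const
    have h1 : (fun ζ : ℂ => A (q + ζ • w)) =ᶠ[𝓝 0]
        (fun ζ : ℂ => ζ * l w) * fun ζ : ℂ => A' (q + ζ • w) := by
      filter_upwards [hq.eventually hAA'] with ζ hζ
      rw [Pi.mul_apply, hζ, add_sub_cancel_left, map_smul, smul_eq_mul]
    rw [analyticOrderAt_congr h1, analyticOrderAt_mul hll hA'l] at hn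
    have h2 : analyticOrderAt (fun ζ : ℂ => ζ * l w) 0 ≠ 0 := by
      rw [hll.analyticOrderAt_ne_zero]
      simp
    have h3 : analyticOrderAt (fun ζ : ℂ => A' (q + ζ • w)) 0 ≠ ⊤ := by
      intro h4
      rw [h4, add_top] at hn
      exact absurd hn (by simp)
    obtain ⟨m, hm⟩ := ENat.ne_top_iff_exists.1 h3
    have h5 : analyticOrderAt (fun ζ : ℂ => ζ * l w) 0 ≠ ⊤ := by
      intro h4
      rw [h4, top_add] at hn
      exact absurd hn (by simp)
    obtain ⟨k, hk⟩ := ENat.ne_top_iff_exists.1 h5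
    rw [← hm, ← hk] at hn
    have hkm : k + m = n := by exact_mod_cast hn
    have hk0 : k ≠ 0 := by
      rintro rfl
      exact h2 (by rw [← hk]; rfl)
    obtain ⟨s, A1, hA1, hsA1, hfr⟩ := ih m (by omega) A' hA' hm.symm
    refine ⟨s + 1, A1, hA1, ?_, hfr⟩
    filter_upwards [hAA', hsA1] with x hx1 hx2
    rw [hx1, hx2]
    ring

/-- The generic order along the hyperplane `l = 0`. -/
theorem gen_order' [FiniteDimensional ℂ E] {q v : E} {l : E →L[ℂ] ℂ} (hl : l v = 1)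
    {A : E → ℂ} (hA : AnalyticAt ℂ A q) (hA0 : ∃ᶠ x in 𝓝 q, A x ≠ 0) :
    ∃ (s : ℕ) (A1 : E → ℂ), AnalyticAt ℂ A1 q ∧ (∀ᶠ x in 𝓝 q, A x = l (x - q) ^ s * A1 x) ∧
      ∃ᶠ x in 𝓝 q, l (x - q) = 0 ∧ A1 x ≠ 0 := by
  obtain ⟨w, hw⟩ := line hA (fun h => hA0 (h.mono fun x hx => not_not.2 hx))
  have h1 : analyticOrderAt (fun ζ : ℂ => A (q + ζ • w)) 0 ≠ ⊤ := by
    rwa [Ne, analyticOrderAt_eq_top]
  obtain ⟨n, hn⟩ := ENat.ne_top_iff_exists.1 h1
  exact gen_order hl n A hA hn.symm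

/-- Two germs which are not zero on the hyperplane `l = 0` are both not zero at some point of the
hyperplane. -/
theorem two_freq [FiniteDimensional ℂ E] {q : E} {l : E →L[ℂ] ℂ}
    {A B : E → ℂ} (hA : AnalyticAt ℂ A q) (hB : AnalyticAt ℂ B q)
    (hA0 : ∃ᶠ x in 𝓝 q, l (x - q) = 0 ∧ A x ≠ 0) (hB0 : ∃ᶠ x in 𝓝 q, l (x - q) = 0 ∧ B x ≠ 0) :
    ∃ᶠ x in 𝓝 q, l (x - q) = 0 ∧ A x ≠ 0 ∧ B x ≠ 0 := by
  set H := LinearMap.ker (l : E →ₗ[ℂ] ℂ) with hH
  have hi : Tendsto (fun w : H => q + (w : E)) (𝓝 0) (𝓝 q) := by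
    have : ContinuousAt (fun w : H => q + (w : E)) 0 := by fun_prop
    simpa [ContinuousAt] using this
  have hian : AnalyticAt ℂ (fun w : H => q + (w : E)) 0 :=
    analyticAt_const.add (H.subtypeL.analyticAt 0)
  have hAH : AnalyticAt ℂ (fun w : H => A (q + w)) 0 :=
    AnalyticAt.comp (g := A) (f := fun w : H => q + (w : E)) (by simpa using hA) hian
  have hBH : AnalyticAt ℂ (fun w : H => B (q + w)) 0 :=
    AnalyticAt.comp (g := B) (f := fun w : H => q + (w : E)) (by simpa using hB) hian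
  have htr : ∀ C : E → ℂ, (∃ᶠ x in 𝓝 q, l (x - q) = 0 ∧ C x ≠ 0) →
      ¬ ∀ᶠ w : H in 𝓝 (0 : H), C (q + (w : E)) = 0 := by
    intro C hC hcon
    obtain ⟨ε, hε, hb⟩ := Metric.eventually_nhds_iff_ball.1 hcon
    obtain ⟨x, ⟨hx1, hx2⟩, hx3⟩ := (hC.and_eventually (ball_mem_nhds q hε)).exists
    apply hx2
    have h1 := hb ⟨x - q, by simpa [hH] using hx1⟩ (by
      rw [mem_ball_zero_iff]
      exact mem_ball_iff_norm.1 hx3)
    simpa using h1
  intro hcon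
  have h1 : ∀ᶠ w : H in 𝓝 (0 : H), A (q + (w : E)) * B (q + (w : E)) = 0 := by
    filter_upwards [hi.eventually hcon] with w hw
    have hlw : l (q + (w : E) - q) = 0 := by
      rw [add_sub_cancel_left]
      exact w.2
    by_contra h2
    exact hw ⟨hlw, left_ne_zero_of_mul h2, right_ne_zero_of_mul h2⟩
  rcases germ_mul hAH hBH h1 with h2 | h2
  · exact htr A hA0 h2
  · exact htr B hB0 h2

/-- Extension across the hyperplane `l = 0` when the quotient has no pole generically. -/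
theorem ext_lin [FiniteDimensional ℂ E] {A2 B1 F : E → ℂ} {q v : E} {l : E →L[ℂ] ℂ}
    (hl : l v = 1) (hv0 : v ≠ 0) (hA2 : AnalyticAt ℂ A2 q) (hB1 : AnalyticAt ℂ B1 q)
    (hB10 : ∃ᶠ x in 𝓝 q, l (x - q) = 0 ∧ B1 x ≠ 0)
    (hF : ∀ᶠ x in 𝓝 q, l (x - q) ≠ 0 → AnalyticAt ℂ F x ∧ B1 x * F x = A2 x) :
    ∃ g : E → ℂ, AnalyticAt ℂ g q ∧ ∀ᶠ x in 𝓝 q, l (x - q) ≠ 0 → g x = F x := by
  have hvn : 0 < ‖v‖ := norm_pos_iff.2 hv0
  obtain ⟨δ, hδ, hball⟩ := Metric.eventually_nhds_iff_ball.1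
    (hA2.eventually_analyticAt.and (hB1.eventually_analyticAt.and hF))
  obtain ⟨r, hr, hrδ⟩ : ∃ r : ℝ, 0 < r ∧ 2 * r * ‖v‖ < δ := by
    refine ⟨δ / (4 * ‖v‖), by positivity, ?_⟩
    calc 2 * (δ / (4 * ‖v‖)) * ‖v‖ = δ / 2 := by field_simp; norm_num
      _ < δ := by linarith
  have hsph : ∀ ζ ∈ sphere (0 : ℂ) r, AnalyticAt ℂ F (q + ζ • v) := by
    intro ζ hζ
    rw [mem_sphere_zero_iff_norm] at hζ
    refine ((hball _ ?_).2.2 ?_).1
    · rw [mem_ball_iff_norm, add_sub_cancel_left, norm_smul, hζ]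
      nlinarith
    · rw [add_sub_cancel_left, map_smul, hl, smul_eq_mul, mul_one]
      rintro rfl
      rw [norm_zero] at hζ
      exact hr.ne hζ
  -- the dense set
  have hπa : AnalyticAt ℂ (fun x => B1 (x - l (x - q) • v)) q := by
    refine AnalyticAt.comp (g := B1) (f := fun x => x - l (x - q) • v) (by simpa using hB1) ?_
    exact analyticAt_id.sub ((lin_an l q q).smul analyticAt_const)
  have hπ0 : ∃ᶠ x in 𝓝 q, B1 (x - l (x - q) • v) ≠ 0 := by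
    refine hB10.mono ?_
    rintro x ⟨h1, h2⟩
    rwa [h1, zero_smul, sub_zero]
  have hD : ∀ᶠ x in 𝓝 q, ∃ᶠ y in 𝓝 x, l (y - q) ≠ 0 ∧ B1 (y - l (y - q) • v) ≠ 0 := by
    filter_upwards [freq_near hπa hπ0, hπa.eventually_analyticAt] with x hx hxa hcon
    have h1 : ∀ᶠ y in 𝓝 x, l (y - q) * B1 (y - l (y - q) • v) = 0 := by
      filter_upwards [hcon] with y hy
      by_contra h2
      exact hy ⟨left_ne_zero_of_mul h2, right_ne_zero_of_mul h2⟩
    rcases germ_mul (lin_an l q x) hxa h1 with h2 | h2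
    · exact lin_freq hl x (h2.mono fun y hy => not_not.2 hy)
    · exact hx (h2.mono fun y hy => not_not.2 hy)
  have hl0 : ∀ᶠ x in 𝓝 q, ‖l (x - q)‖ < r := by
    have hc : ContinuousAt (fun x => ‖l (x - q)‖) q := by fun_prop
    apply hc.eventually_lt_const
    simpa using hr
  obtain ⟨g, hg, hgF⟩ := cauchy_ext (l := l) hr hsph hD (by
    filter_upwards [line_near l hrδ, hl0] with x hx hxl hDx
    obtain ⟨hlx, hBx⟩ := hDx
    set ζ₀ := l (x - q) with hζ₀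
    have hlin : ∀ ζ : ℂ, l (x + (ζ - ζ₀) • v - q) = ζ := by
      intro ζ
      have h1 : x + (ζ - ζ₀) • v - q = (x - q) + (ζ - ζ₀) • v := by abel
      rw [h1, map_add, map_smul, hl, ← hζ₀, smul_eq_mul, mul_one]
      ring
    have haff : ∀ ζ : ℂ, AnalyticAt ℂ (fun ζ : ℂ => x + (ζ - ζ₀) • v) ζ := fun ζ =>
      analyticAt_const.add ((analyticAt_id.sub analyticAt_const).smul analyticAt_const)
    have h0eq : x + ((0 : ℂ) - ζ₀) • v = x - ζ₀ • v := by
      rw [zero_sub, neg_smul]; abel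
    have h0mem := hball _ (hx 0 (mem_ball_self (by linarith)))
    set ψ : ℂ → ℂ := fun ζ => A2 (x + (ζ - ζ₀) • v) / B1 (x + (ζ - ζ₀) • v) with hψ
    have hψa : AnalyticAt ℂ ψ 0 := by
      refine AnalyticAt.div ?_ ?_ ?_
      · exact AnalyticAt.comp (g := A2) (f := fun ζ : ℂ => x + (ζ - ζ₀) • v) h0mem.1 (haff 0)
      · exact AnalyticAt.comp (g := B1) (f := fun ζ : ℂ => x + (ζ - ζ₀) • v) h0mem.2.1 (haff 0)
      · rw [h0eq]
        exact hBx
    have hψφ : ∀ᶠ ζ in 𝓝 (0 : ℂ), ζ ≠ 0 → ψ ζ = F (x + (ζ - ζ₀) • v) := by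
      have hc : ContinuousAt (fun ζ : ℂ => B1 (x + (ζ - ζ₀) • v)) 0 :=
        (AnalyticAt.comp (g := B1) (f := fun ζ : ℂ => x + (ζ - ζ₀) • v) h0mem.2.1
          (haff 0)).continuousAt
      have hne : ∀ᶠ ζ in 𝓝 (0 : ℂ), B1 (x + (ζ - ζ₀) • v) ≠ 0 := by
        apply hc.eventually_ne
        rw [h0eq]
        exact hBx
      filter_upwards [hne, ball_mem_nhds (0 : ℂ) (show (0 : ℝ) < 2 * r by linarith)]
        with ζ hζ1 hζ2 hζ0
      have h3 := ((hball _ (hx ζ hζ2)).2.2 (by rw [hlin]; exact hζ0)).2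
      rw [hψ]
      simp only
      rw [← h3, mul_div_cancel_left₀ _ hζ1]
    set g : ℂ → ℂ := fun ζ => if ζ = 0 then ψ 0 else F (x + (ζ - ζ₀) • v) with hg
    have hgd : DifferentiableOn ℂ g (ball (0 : ℂ) (2 * r)) := by
      intro ζ hζ
      by_cases hζ0 : ζ = 0
      · subst hζ0
        refine (hψa.differentiableAt.congr_of_eventuallyEq ?_).differentiableWithinAt
        filter_upwards [hψφ] with ξ hξ
        by_cases hξ0 : ξ = 0
        · rw [hg]; simp [hξ0]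
        · rw [hg]; simp only [if_neg hξ0]
          exact (hξ hξ0).symm
      · have h4 : AnalyticAt ℂ F (x + (ζ - ζ₀) • v) :=
          ((hball _ (hx ζ hζ)).2.2 (by rw [hlin]; exact hζ0)).1
        have h5 : DifferentiableAt ℂ (fun ζ : ℂ => F (x + (ζ - ζ₀) • v)) ζ :=
          (AnalyticAt.comp (g := F) (f := fun ζ : ℂ => x + (ζ - ζ₀) • v) h4
            (haff ζ)).differentiableAt
        refine (h5.congr_of_eventuallyEq ?_).differentiableWithinAt
        filter_upwards [isOpen_ne.mem_nhds hζ0] with ξ hξ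
        rw [hg]
        exact if_neg hξ
    have hsub : closure (ball (0 : ℂ) r) ⊆ ball (0 : ℂ) (2 * r) :=
      closure_ball_subset_closedBall.trans (closedBall_subset_ball (by linarith))
    refine ⟨g, (hgd.mono hsub).diffContOnCl, fun ζ hζ => ?_, ?_⟩
    · have hζ0 : ζ ≠ 0 := by
        rintro rfl
        rw [mem_sphere_zero_iff_norm, norm_zero] at hζ
        exact hr.ne hζ
      rw [hg]
      exact (if_neg hζ0).symm
    · rw [hg]
      simp only [if_neg hlx, sub_self, zero_smul, add_zero])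
  refine ⟨g, hg, ?_⟩
  filter_upwards [hgF, hF] with x hx hFx hlx
  exact hx (hFx hlx).1.continuousAt

/-- The pole lemma, when the poles are in the hyperplane `l = 0`. -/
theorem pole_lin [FiniteDimensional ℂ E] {A B F : E → ℂ} {q v : E} {l : E →L[ℂ] ℂ} (hl : l v = 1)
    (hv0 : v ≠ 0) (hA : AnalyticAt ℂ A q) (hB : AnalyticAt ℂ B q) (hB0 : ∃ᶠ x in 𝓝 q, B x ≠ 0)
    (hF : ∀ᶠ x in 𝓝 q, l (x - q) ≠ 0 → AnalyticAt ℂ F x ∧ B x * F x = A x)
    (hno : ¬ ∃ h : E → ℂ, AnalyticAt ℂ h q ∧ ∀ᶠ x in 𝓝 q, B x * h x = A x) {N : Set E}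
    (hN : N ∈ 𝓝 q) :
    ∃ y ∈ N, ∃ (u : E → ℂ) (e : ℕ), 1 ≤ e ∧ AnalyticAt ℂ u y ∧ u y ≠ 0 ∧ l (y - q) = 0 ∧
      ∀ᶠ x in 𝓝 y, l (x - q) ^ e * A x = u x * B x := by
  have hA0 : ∃ᶠ x in 𝓝 q, A x ≠ 0 := by
    intro hcon
    refine hno ⟨fun _ => 0, analyticAt_const, ?_⟩
    filter_upwards [hcon] with x hx
    rw [mul_zero, not_not.1 hx]
  obtain ⟨s', A1, hA1, hAA1, hA10⟩ := gen_order' hl hA hA0
  obtain ⟨s, B1, hB1, hBB1, hB10⟩ := gen_order' hl hB hB0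
  rcases lt_or_ge s' s with hlt | hge
  · obtain ⟨y, ⟨hy1, hy2, hy3⟩, hyN, hyA, hyB, hyA1, hyB1⟩ := ((two_freq hA1 hB1 hA10
      hB10).and_eventually ((Filter.eventually_mem_set.2 hN).and (hAA1.eventually_nhds.and
      (hBB1.eventually_nhds.and
        (hA1.eventually_analyticAt.and hB1.eventually_analyticAt))))).exists
    refine ⟨y, hyN, fun x => A1 x / B1 x, s - s', by omega, hyA1.div hyB1 hy3,
      div_ne_zero hy2 hy3, hy1, ?_⟩
    filter_upwards [hyA, hyB, hyB1.continuousAt.eventually_ne hy3] with x hx1 hx2 hx3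
    rw [hx1, hx2, ← mul_assoc, ← pow_add, Nat.sub_add_cancel hlt.le]
    field_simp
  · exfalso
    apply hno
    have hA2 : AnalyticAt ℂ (fun x => l (x - q) ^ (s' - s) * A1 x) q :=
      ((lin_an l q q).pow _).mul hA1
    obtain ⟨g, hg, hgF⟩ := ext_lin hl hv0 hA2 hB1 hB10 (F := F) (by
      filter_upwards [hF, hAA1, hBB1] with x hx hxA hxB hlx
      refine ⟨(hx hlx).1, ?_⟩
      have h1 := (hx hlx).2
      rw [hxA, hxB] at h1
      apply mul_left_cancel₀ (pow_ne_zero s hlx)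
      rw [← mul_assoc, h1, ← mul_assoc, ← pow_add, Nat.add_sub_cancel' hge])
    refine ⟨g, hg, ?_⟩
    have h2 : ∀ᶠ x in 𝓝 q, l (x - q) ≠ 0 → B x * g x = A x := by
      filter_upwards [hgF, hF] with x hx1 hx2 hlx
      rw [hx1 hlx]
      exact (hx2 hlx).2
    filter_upwards [h2.eventually_nhds, hA.eventually_analyticAt, hB.eventually_analyticAt,
      hg.eventually_analyticAt] with x hx hxA hxB hxg
    refine eq_of_frequently (hxB.mul hxg).continuousAt hxA.continuousAt ?_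
    exact ((lin_freq hl x).and_eventually hx).mono fun y hy => hy.2 hy.1

/-- The derivative in the direction `v`. -/
noncomputable def dv (v : E) (g : E → ℂ) : E → ℂ := fun x => fderiv ℂ g x v

theorem dv_an {v : E} {g : E → ℂ} {x : E} (hg : AnalyticAt ℂ g x) : AnalyticAt ℂ (dv v g) x :=
  ((ContinuousLinearMap.apply ℂ ℂ v).analyticAt _).comp hg.fderiv

theorem dv_iter_an {v : E} {g : E → ℂ} {x : E} (hg : AnalyticAt ℂ g x) (k : ℕ) :
    AnalyticAt ℂ ((dv v)^[k] g) x := by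
  induction k with
  | zero => exact hg
  | succ k ih =>
    rw [Function.iterate_succ_apply']
    exact dv_an ih

theorem dv_line {v p : E} {g : E → ℂ} (hg : AnalyticAt ℂ g p) (k : ℕ) :
    ∀ᶠ ζ in 𝓝 (0 : ℂ), iteratedDeriv k (fun ζ : ℂ => g (p + ζ • v)) ζ =
      ((dv v)^[k] g) (p + ζ • v) := by
  have hc : Tendsto (fun ζ : ℂ => p + ζ • v) (𝓝 0) (𝓝 p) := by
    have : ContinuousAt (fun ζ : ℂ => p + ζ • v) 0 := by fun_prop
    simpa [ContinuousAt] using this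
  induction k with
  | zero => exact Filter.Eventually.of_forall fun ζ => by simp
  | succ k ih =>
    filter_upwards [ih.eventually_nhds, hc.eventually (dv_iter_an (v := v) hg k).eventually_analyticAt]
      with ζ h1 h2
    rw [iteratedDeriv_succ, Filter.EventuallyEq.deriv_eq h1, Function.iterate_succ_apply']
    have h3 : HasDerivAt (fun ζ : ℂ => p + ζ • v) v ζ := by
      simpa using ((hasDerivAt_id ζ).smul_const v).const_add p
    exact (h2.differentiableAt.hasFDerivAt.comp_hasDerivAt ζ h3).deriv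

theorem dv_zero {v p : E} {g : E → ℂ} (hg : AnalyticAt ℂ g p) (h : ∀ k, ((dv v)^[k] g) p = 0) :
    ∀ᶠ ζ in 𝓝 (0 : ℂ), g (p + ζ • v) = 0 := by
  have h1 : AnalyticAt ℂ (fun ζ : ℂ => g (p + ζ • v)) 0 :=
    AnalyticAt.comp (g := g) (f := fun ζ : ℂ => p + ζ • v) (by simpa using hg)
      (analyticAt_const.add (analyticAt_id.smul analyticAt_const))
  have h2 := h1.hasFPowerSeriesAt
  rw [h2.locally_zero_iff]
  ext n
  have h3 := (dv_line (v := v) hg n).self_of_nhds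
  rw [zero_smul, add_zero, h n] at h3
  simp [FormalMultilinearSeries.ofScalars, h3]

/-- `a / b` is analytic at `q`. -/
def Good (a b : E → ℂ) (q : E) : Prop :=
  ∃ h : E → ℂ, AnalyticAt ℂ h q ∧ ∀ᶠ x in 𝓝 q, b x * h x = a x

theorem good_of_ne {a b : E → ℂ} {q : E} (ha : AnalyticAt ℂ a q) (hb : AnalyticAt ℂ b q)
    (h : b q ≠ 0) : Good a b q := by
  refine ⟨fun x => a x / b x, ha.div hb h, ?_⟩
  filter_upwards [hb.continuousAt.eventually_ne h] with x hx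
  rw [mul_div_cancel₀ _ hx]

theorem good_eventually {a b : E → ℂ} {q : E} (h : Good a b q) : ∀ᶠ x in 𝓝 q, Good a b x := by
  obtain ⟨h, h1, h2⟩ := h
  filter_upwards [h1.eventually_analyticAt, h2.eventually_nhds] with x h3 h4
  exact ⟨h, h3, h4⟩

/-- **The pole lemma.** If `a / b` is not analytic at `p`, then arbitrarily near `p` there are
points `q` where `a / b = u / c ^ e` with `e ≥ 1`, `u q ≠ 0` and a coordinate function `c`. -/
theorem pole [FiniteDimensional ℂ E] {a b : E → ℂ} {p : E} (ha : AnalyticAt ℂ a p)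
    (hb : AnalyticAt ℂ b p) (hb0 : ∃ᶠ x in 𝓝 p, b x ≠ 0)
    (hno : ¬ ∃ h : E → ℂ, AnalyticAt ℂ h p ∧ ∀ᶠ x in 𝓝 p, b x * h x = a x) {N : Set E}
    (hN : N ∈ 𝓝 p) :
    ∃ q ∈ N, ∃ (c u : E → ℂ) (e : ℕ), 1 ≤ e ∧ AnalyticAt ℂ c q ∧ AnalyticAt ℂ u q ∧ c q = 0 ∧
      fderiv ℂ c q ≠ 0 ∧ u q ≠ 0 ∧ ∀ᶠ x in 𝓝 q, c x ^ e * a x = u x * b x := by
  classical
  -- the direction
  obtain ⟨v, hv⟩ := line hb (fun h => hb0 (h.mono fun x hx => not_not.2 hx))
  obtain ⟨K, hK⟩ : ∃ K, ((dv v)^[K] b) p ≠ 0 := by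
    by_contra hcon
    push Not at hcon
    exact hv (dv_zero hb hcon)
  have hbp : b p = 0 := by
    by_contra h
    exact hno (good_of_ne ha hb h)
  have hv0 : v ≠ 0 := by
    rintro rfl
    apply hv
    simp [hbp]
  obtain ⟨l, hl⟩ := SeparatingDual.exists_eq_one (R := ℂ) hv0
  -- the neighbourhood
  have hev : ∀ᶠ x in 𝓝 p, x ∈ N ∧ AnalyticAt ℂ a x ∧ AnalyticAt ℂ b x ∧
      ((dv v)^[K] b) x ≠ 0 ∧ ∃ᶠ y in 𝓝 x, b y ≠ 0 :=
    (Filter.eventually_mem_set.2 hN).and (ha.eventually_analyticAt.and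
      (hb.eventually_analyticAt.and (((dv_iter_an hb K).continuousAt.eventually_ne hK).and
        (freq_near hb hb0))))
  obtain ⟨U, hUsub, hUo, hpU⟩ := _root_.mem_nhds_iff.1 hev
  have hP : ∃ m, ∃ q ∈ U, ¬ Good a b q ∧ ((dv v)^[m] b) q ≠ 0 := ⟨K, p, hpU, hno, hK⟩
  obtain ⟨q₁, hq₁U, hq₁, hq₁m⟩ := Nat.find_spec hP
  have hmin : ∀ m < Nat.find hP, ∀ q ∈ U, ¬ Good a b q → ((dv v)^[m] b) q = 0 := by
    intro m hm q hqU hq
    by_contra h
    exact Nat.find_min hP hm ⟨q, hqU, hq, h⟩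
  have hm0 : Nat.find hP ≠ 0 := by
    intro h0
    rw [h0] at hq₁m
    exact hq₁ (good_of_ne (hUsub hq₁U).2.1 (hUsub hq₁U).2.2.1 hq₁m)
  obtain ⟨m, hm⟩ := Nat.exists_eq_succ_of_ne_zero hm0
  set c : E → ℂ := (dv v)^[m] b with hc
  have hca : ∀ x ∈ U, AnalyticAt ℂ c x := fun x hx => dv_iter_an (hUsub hx).2.2.1 m
  have hcbad : ∀ q ∈ U, ¬ Good a b q → c q = 0 := hmin m (by omega)
  have hcq₁ : c q₁ = 0 := hcbad q₁ hq₁U hq₁
  have hκ : fderiv ℂ c q₁ v ≠ 0 := by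
    rw [hm, Nat.succ_eq_add_one, Function.iterate_succ_apply'] at hq₁m
    exact hq₁m
  set κ : ℂ := fderiv ℂ c q₁ v with hκd
  -- the quotient away from the bad points
  set V : Set E := {x | x ∈ U ∧ Good a b x} with hVdef
  have hVo : IsOpen V := by
    rw [isOpen_iff_mem_nhds]
    rintro x ⟨hx1, hx2⟩
    filter_upwards [hUo.mem_nhds hx1, good_eventually hx2] with y h1 h2
    exact ⟨h1, h2⟩
  obtain ⟨F, hFa, hFb⟩ := glue (f := fun x => a x / b x) hVo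
    (fun x hx => (hUsub hx.1).2.2.2.2) (fun x hx => by
      obtain ⟨h, h1, h2⟩ := hx.2
      refine ⟨h, h1, ?_⟩
      filter_upwards [h2] with y hy hby
      rw [← hy, mul_div_cancel_left₀ _ hby])
  have hFab : ∀ x ∈ V, b x * F x = a x := by
    intro x hx
    refine eq_of_frequently ((hUsub hx.1).2.2.1.mul (hFa x hx)).continuousAt
      (hUsub hx.1).2.1.continuousAt ?_
    refine ((hUsub hx.1).2.2.2.2.and_eventually (hVo.mem_nhds hx)).mono ?_
    rintro y ⟨hby, hyV⟩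
    change b y * F y = a y
    rw [hFb y hyV hby, mul_div_cancel₀ _ hby]
  -- straightening
  set c' : E →L[ℂ] ℂ := fderiv ℂ c q₁ with hc'
  set Φ : E → E := fun x => x + (c x - l (x - q₁)) • v with hΦ
  set L : E →L[ℂ] E := ContinuousLinearMap.id ℂ E + (c' - l).smulRight v with hL
  set L' : E →L[ℂ] E := ContinuousLinearMap.id ℂ E - (κ⁻¹ • (c' - l)).smulRight v with hL'
  have hLw : ∀ w, L w = w + (c' w - l w) • v := fun w => rfl
  have hL'w : ∀ w, L' w = w - (κ⁻¹ * (c' w - l w)) • v := fun w => rfl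
  have hLL' : Function.LeftInverse L' L := by
    intro w
    have h1 : κ⁻¹ * (c' (L w) - l (L w)) = c' w - l w := by
      rw [hLw, map_add, map_smul, map_add, map_smul, hl, ← hκd, smul_eq_mul, smul_eq_mul]
      field_simp
      ring
    rw [hL'w, h1, hLw]
    abel
  have hL'L : Function.RightInverse L' L := by
    intro w
    have h1 : c' (L' w) - l (L' w) = κ⁻¹ * (c' w - l w) := by
      rw [hL'w, map_sub, map_smul, map_sub, map_smul, hl, ← hκd, smul_eq_mul, smul_eq_mul]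
      field_simp
      ring
    rw [hLw, h1, hL'w]
    abel
  have hΦa : ∀ x ∈ U, AnalyticAt ℂ Φ x := fun x hx =>
    analyticAt_id.add (((hca x hx).sub (lin_an l q₁ x)).smul analyticAt_const)
  have hΦd : fderiv ℂ Φ q₁ = L := by
    have h1 : HasFDerivAt c c' q₁ := (hca q₁ hq₁U).differentiableAt.hasFDerivAt
    have h2 : HasFDerivAt (fun x => l (x - q₁)) l q₁ := by
      have h3 : HasFDerivAt (fun x : E => x - q₁) (ContinuousLinearMap.id ℂ E) q₁ :=
        (hasFDerivAt_id q₁).sub_const q₁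
      exact l.hasFDerivAt.comp q₁ h3
    exact ((hasFDerivAt_id q₁).add ((h1.sub h2).smul_const v)).fderiv
  have hΦq₁ : Φ q₁ = q₁ := by
    simp [hΦ, hcq₁]
  obtain ⟨e, heq₁, heΦ, -, hesymm⟩ := inv (hΦa q₁ hq₁U)
    (ContinuousLinearEquiv.equivOfInverse L L' hLL' hL'L) (by
      rw [hΦd]
      rfl)
  have hlΦ : ∀ x, l (Φ x - q₁) = c x := by
    intro x
    have h1 : Φ x - q₁ = (x - q₁) + (c x - l (x - q₁)) • v := by
      rw [hΦ]; simp only; abel
    rw [h1, map_add, map_smul, hl, smul_eq_mul, mul_one]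
    ring
  set Ψ : E → E := fun y => e.symm y with hΨ
  have hqt : q₁ ∈ e.target := by
    have h1 := e.map_source heq₁
    rwa [heΦ, hΦq₁] at h1
  have hΨq₁ : Ψ q₁ = q₁ := by
    have h1 := e.left_inv heq₁
    rwa [heΦ, hΦq₁] at h1
  have hΨa : AnalyticAt ℂ Ψ q₁ := hesymm q₁ hqt
  have hΦΨ : ∀ y ∈ e.target, Φ (Ψ y) = y := fun y hy => by
    rw [← heΦ]
    exact e.right_inv hy
  have hΨΦ : ∀ x ∈ e.source, Ψ (Φ x) = x := fun x hx => by
    rw [← heΦ]
    exact e.left_inv hx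
  have hcΨ : ∀ y ∈ e.target, c (Ψ y) = l (y - q₁) := fun y hy => by
    rw [← hlΦ, hΦΨ y hy]
  have hΨt : Tendsto Ψ (𝓝 q₁) (𝓝 q₁) := by
    have h1 := hΨa.continuousAt
    rwa [ContinuousAt, hΨq₁] at h1
  have hΦt : Tendsto Φ (𝓝 q₁) (𝓝 q₁) := by
    have h1 := (hΦa q₁ hq₁U).continuousAt
    rwa [ContinuousAt, hΦq₁] at h1
  have haΨ : AnalyticAt ℂ (fun y => a (Ψ y)) q₁ :=
    AnalyticAt.comp (g := a) (f := Ψ) (by rw [hΨq₁]; exact (hUsub hq₁U).2.1) hΨa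
  have hbΨ : AnalyticAt ℂ (fun y => b (Ψ y)) q₁ :=
    AnalyticAt.comp (g := b) (f := Ψ) (by rw [hΨq₁]; exact (hUsub hq₁U).2.2.1) hΨa
  have hsrc : ∀ᶠ x in 𝓝 q₁, x ∈ e.source := e.open_source.mem_nhds heq₁
  have htgt : ∀ᶠ y in 𝓝 q₁, y ∈ e.target := e.open_target.mem_nhds hqt
  have hUΨ : ∀ᶠ y in 𝓝 q₁, Ψ y ∈ U := hΨt.eventually (hUo.mem_nhds hq₁U)
  have hbΨ0 : ∃ᶠ y in 𝓝 q₁, b (Ψ y) ≠ 0 := by
    intro hcon
    apply (hUsub hq₁U).2.2.2.2
    filter_upwards [hΦt.eventually hcon, hsrc] with x hx1 hx2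
    rwa [hΨΦ x hx2] at hx1
  have hno' : ¬ ∃ h : E → ℂ, AnalyticAt ℂ h q₁ ∧ ∀ᶠ x in 𝓝 q₁, b (Ψ x) * h x = a (Ψ x) := by
    rintro ⟨h, h1, h2⟩
    apply hq₁
    refine ⟨fun x => h (Φ x), AnalyticAt.comp (g := h) (f := Φ) (by rw [hΦq₁]; exact h1)
      (hΦa q₁ hq₁U), ?_⟩
    filter_upwards [hΦt.eventually h2, hsrc] with x hx1 hx2
    rwa [hΨΦ x hx2] at hx1
  have hF' : ∀ᶠ y in 𝓝 q₁, l (y - q₁) ≠ 0 →
      AnalyticAt ℂ (fun y => F (Ψ y)) y ∧ b (Ψ y) * F (Ψ y) = a (Ψ y) := by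
    filter_upwards [htgt, hUΨ] with y hy1 hy2 hly
    have h1 : Ψ y ∈ V := by
      refine ⟨hy2, ?_⟩
      by_contra h2
      rw [← hcΨ y hy1] at hly
      exact hly (hcbad _ hy2 h2)
    exact ⟨AnalyticAt.comp (g := F) (f := Ψ) (hFa _ h1) (hesymm y hy1), hFab _ h1⟩
  have hκev : ∀ᶠ x in 𝓝 q₁, fderiv ℂ c x ≠ 0 := by
    have h1 : ContinuousAt (fun x => fderiv ℂ c x) q₁ := (hca q₁ hq₁U).fderiv.continuousAt
    apply h1.eventually_ne
    intro h2
    apply hκ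
    change fderiv ℂ c q₁ v = 0
    rw [h2]
    rfl
  obtain ⟨y, ⟨hyt, hyU, hyκ⟩, u, n, hn, hua, hu0, hly, huA⟩ := pole_lin hl hv0 haΨ hbΨ hbΨ0 hF'
    hno' (N := {y | y ∈ e.target ∧ Ψ y ∈ U ∧ fderiv ℂ c (Ψ y) ≠ 0})
    (htgt.and (hUΨ.and (hΨt.eventually hκev)))
  have hΨsrc : Ψ y ∈ e.source := e.map_target hyt
  have hΦc : Tendsto Φ (𝓝 (Ψ y)) (𝓝 y) := by
    have h1 := (hΦa _ hyU).continuousAt
    rwa [ContinuousAt, hΦΨ y hyt] at h1
  refine ⟨Ψ y, (hUsub hyU).1, c, fun x => u (Φ x), n, hn, hca _ hyU,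
    AnalyticAt.comp (g := u) (f := Φ) (by rw [hΦΨ y hyt]; exact hua) (hΦa _ hyU),
    by rw [hcΨ y hyt, hly], hyκ, by simpa only [hΦΨ y hyt] using hu0, ?_⟩
  filter_upwards [hΦc.eventually huA, e.open_source.mem_nhds hΨsrc] with x hx1 hx2
  rw [hlΦ, hΨΦ x hx2] at hx1
  exact hx1

end Pool.Agent.KO.C
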