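import Pool.Agent.KO.C.Osgood

/-!
# Project KO, block C: circle integrals which depend analytically on a parameter
-/

set_option autoImplicit false
open Set Filter Topology Metric MeasureTheory

namespace Pool.Agent.KO.C

variable {E G : Type*} [NormedAddCommGroup E] [NormedSpace ℂ E] [FiniteDimensional ℂ E]
  [NormedAddCommGroup G] [NormedSpace ℂ G] [CompleteSpace G]

theorem circ {F : E × ℂ → G} {p : E} {c : ℂ} {r : ℝ} (hr : 0 ≤ r)
    (h : ∀ ζ ∈ sphere c r, AnalyticAt ℂ F (p, ζ)) :
    AnalyticAt ℂ (fun x => ∮ ζ in C(c, r), F (x, ζ)) p := by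
  have : ProperSpace E := FiniteDimensional.proper ℂ E
  have hO : IsOpen {q : E × ℂ | AnalyticAt ℂ F q} := isOpen_analyticAt ℂ F
  obtain ⟨U, V, hU, hV, hpU, hSV, hUV⟩ := generalized_tube_lemma (s := {p}) (t := sphere c r)
    isCompact_singleton (isCompact_sphere c r) hO (by
      rintro ⟨x, ζ⟩ ⟨hx, hζ⟩
      rw [mem_singleton_iff] at hx
      subst hx
      exact h ζ hζ)
  obtain ⟨ε, hε, hεU⟩ := Metric.isOpen_iff.1 hU p (hpU rfl)
  have hcl : closedBall p (ε / 2) ⊆ U :=
    (closedBall_subset_ball (by linarith)).trans hεU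
  have hK : IsCompact (closedBall p (ε / 2) ×ˢ sphere c r) :=
    (isCompact_closedBall p _).prod (isCompact_sphere c r)
  have hKO : closedBall p (ε / 2) ×ˢ sphere c r ⊆ {q : E × ℂ | AnalyticAt ℂ F q} :=
    (prod_mono hcl hSV).trans hUV
  have hfd : ContinuousOn (fun q => fderiv ℂ F q) (closedBall p (ε / 2) ×ˢ sphere c r) := by
    intro q hq
    exact (hKO hq).fderiv.continuousAt.continuousWithinAt
  obtain ⟨M, hM⟩ := hK.exists_bound_of_continuousOn hfd
  have hS : ∀ θ : ℝ, circleMap c r θ ∈ sphere c r := fun θ => circleMap_mem_sphere c hr θ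
  have hdiff : DifferentiableOn ℂ (fun x => ∮ ζ in C(c, r), F (x, ζ)) (ball p (ε / 2)) := by
    intro x₀ hx₀
    set Φ : E → ℝ → G := fun x θ => deriv (circleMap c r) θ • F (x, circleMap c r θ) with hΦ
    set Φ' : E → ℝ → E →L[ℂ] G := fun x θ => deriv (circleMap c r) θ •
      (fderiv ℂ F (x, circleMap c r θ)).comp (ContinuousLinearMap.inl ℂ E ℂ) with hΦ'
    have han : ∀ x ∈ closedBall p (ε / 2), ∀ θ, AnalyticAt ℂ F (x, circleMap c r θ) :=
      fun x hx θ => hKO ⟨hx, hS θ⟩
    have hdc : Continuous fun θ => deriv (circleMap c r) θ := by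
      simp only [deriv_circleMap]
      exact (continuous_circleMap 0 r).mul continuous_const
    have hcont : ∀ x ∈ closedBall p (ε / 2), Continuous (Φ x) := by
      intro x hx
      refine Continuous.smul (f := fun θ => deriv (circleMap c r) θ)
        (g := fun θ => F (x, circleMap c r θ)) ?_ ?_
      · exact hdc
      · refine continuous_iff_continuousAt.2 fun θ => ?_
        exact ContinuousAt.comp (f := fun θ => (x, circleMap c r θ)) (han x hx θ).continuousAt
          (by fun_prop)
    have hcont' : Continuous (Φ' x₀) := by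
      refine Continuous.smul (f := fun θ => deriv (circleMap c r) θ)
        (g := fun θ => (fderiv ℂ F (x₀, circleMap c r θ)).comp
          (ContinuousLinearMap.inl ℂ E ℂ)) ?_ ?_
      · exact hdc
      · refine Continuous.clm_comp ?_ continuous_const
        refine continuous_iff_continuousAt.2 fun θ => ?_
        exact ContinuousAt.comp (f := fun θ => (x₀, circleMap c r θ))
          (han x₀ (ball_subset_closedBall hx₀) θ).fderiv.continuousAt (by fun_prop)
    have hnb : ball p (ε / 2) ∈ 𝓝 x₀ := isOpen_ball.mem_nhds hx₀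
    have key := intervalIntegral.hasFDerivAt_integral_of_dominated_of_fderiv_le (𝕜 := ℂ)
      (μ := volume) (a := 0) (b := 2 * Real.pi) (F := Φ) (F' := Φ') (x₀ := x₀)
      (bound := fun _ => r * M) (s := ball p (ε / 2)) hnb
      (by
        filter_upwards [hnb] with x hx
        exact (hcont x (ball_subset_closedBall hx)).aestronglyMeasurable)
      ((hcont x₀ (ball_subset_closedBall hx₀)).intervalIntegrable _ _)
      hcont'.aestronglyMeasurable
      (by
        refine Filter.Eventually.of_forall fun θ _ x hx => ?_
        have h1 := hM (x, circleMap c r θ) ⟨ball_subset_closedBall hx, hS θ⟩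
        have h2 : ‖deriv (circleMap c r) θ‖ = r := by
          rw [deriv_circleMap, norm_mul, Complex.norm_I, mul_one, norm_circleMap_zero,
            abs_of_nonneg hr]
        have h3 : ‖(fderiv ℂ F (x, circleMap c r θ)).comp (ContinuousLinearMap.inl ℂ E ℂ)‖ ≤ M := by
          refine (ContinuousLinearMap.opNorm_comp_le _ _).trans ?_
          refine (mul_le_mul h1 (ContinuousLinearMap.norm_inl_le_one ℂ E ℂ) (norm_nonneg _)
            ((norm_nonneg _).trans h1)).trans ?_
          rw [mul_one]
        rw [hΦ', norm_smul, h2]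
        exact mul_le_mul_of_nonneg_left h3 hr)
      intervalIntegrable_const
      (by
        refine Filter.Eventually.of_forall fun θ _ x hx => ?_
        have h1 : HasFDerivAt F (fderiv ℂ F (x, circleMap c r θ)) (x, circleMap c r θ) :=
          (han x (ball_subset_closedBall hx) θ).differentiableAt.hasFDerivAt
        have h2 : HasFDerivAt (fun x : E => (x, circleMap c r θ))
            (ContinuousLinearMap.inl ℂ E ℂ) x := hasFDerivAt_prodMk_left x _
        exact (h1.comp x h2).const_smul _)
    exact key.differentiableAt.differentiableWithinAt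
  exact osgood isOpen_ball hdiff p (mem_ball_self (by positivity))

end Pool.Agent.KO.C
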