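import Pool.Agent.KO.C.Iden

/-!
# Project KO, several complex variables: the complement of a hypersurface is connected
-/

set_option autoImplicit false

namespace Pool.Agent.KO.C

open Set Filter Topology

/-- Preconnectedness of a dense, locally preconnected subset. -/
theorem preconn_of_local {X : Type*} [TopologicalSpace X] {U S : Set X}
    (hU : IsPreconnected U) (hSU : S ⊆ U) (hd : U ⊆ closure S)
    (hloc : ∀ p ∈ U, ∃ N, IsOpen N ∧ p ∈ N ∧ IsPreconnected (N ∩ S)) : IsPreconnected S := by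
  intro A B hA hB hSAB hSA hSB
  by_contra hcon
  rw [Set.not_nonempty_iff_eq_empty] at hcon
  have key := hU (⋃₀ {N | IsOpen N ∧ N ∩ S ⊆ A}) (⋃₀ {N | IsOpen N ∧ N ∩ S ⊆ B})
    (isOpen_sUnion fun N hN => hN.1) (isOpen_sUnion fun N hN => hN.1) (by
      intro p hp
      obtain ⟨N, hN, hpN, hpre⟩ := hloc p hp
      rcases isPreconnected_iff_subset_of_disjoint.1 hpre A B hA hB
        (inter_subset_right.trans hSAB) (by
          rw [← Set.subset_empty_iff, ← hcon]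
          intro x hx
          exact ⟨hx.1.2, hx.2⟩) with h | h
      · exact Or.inl ⟨N, ⟨hN, h⟩, hpN⟩
      · exact Or.inr ⟨N, ⟨hN, h⟩, hpN⟩)
    (by
      obtain ⟨x, hx, hxA⟩ := hSA
      exact ⟨x, hSU hx, A, ⟨hA, inter_subset_left⟩, hxA⟩)
    (by
      obtain ⟨x, hx, hxB⟩ := hSB
      exact ⟨x, hSU hx, B, ⟨hB, inter_subset_left⟩, hxB⟩)
  obtain ⟨p, hpU, ⟨N1, ⟨hN1, h1⟩, hp1⟩, ⟨N2, ⟨hN2, h2⟩, hp2⟩⟩ := key
  obtain ⟨q, hq, hqS⟩ := mem_closure_iff.1 (hd hpU) (N1 ∩ N2) (hN1.inter hN2) ⟨hp1, hp2⟩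
  have h3 : q ∈ S ∩ (A ∩ B) := ⟨hqS, h1 ⟨hq.1, hqS⟩, h2 ⟨hq.2, hqS⟩⟩
  rw [hcon] at h3
  exact h3

variable {E : Type*} [NormedAddCommGroup E] [NormedSpace ℂ E]

/-- Two points outside of the zero set of an analytic function can be joined outside of the zero
set if the segment between them lies in the open set where the function is analytic. -/
theorem joined {b : E → ℂ} {B : Set E} (hB : IsOpen B) (hb : AnalyticOnNhd ℂ b B) {x y : E}
    (hx : b x ≠ 0) (hy : b y ≠ 0)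
    (hseg : ∀ t ∈ Icc (0 : ℝ) 1, x + (t : ℂ) • (y - x) ∈ B) :
    JoinedIn {z | z ∈ B ∧ b z ≠ 0} x y := by
  set γ : ℂ → E := fun ζ => x + ζ • (y - x) with hγ
  have hγc : Continuous γ := by fun_prop
  have hγa : ∀ ζ, AnalyticAt ℂ γ ζ := fun ζ =>
    analyticAt_const.add (analyticAt_id.smul analyticAt_const)
  have hD : IsOpen (γ ⁻¹' B) := hB.preimage hγc
  have hI : IsCompact ((fun t : ℝ => (t : ℂ)) '' Icc (0 : ℝ) 1) :=
    isCompact_Icc.image Complex.continuous_ofReal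
  obtain ⟨δ, hδ, hth⟩ := hI.exists_thickening_subset_open hD (by
    rintro _ ⟨t, ht, rfl⟩
    exact hseg t ht)
  set P : ℝ → ℝ → ℂ := fun s t => (t : ℂ) + (s * (t * (1 - t)) : ℝ) * Complex.I with hP
  have hPD : ∀ s ∈ Icc (0 : ℝ) (δ / 2), ∀ t ∈ Icc (0 : ℝ) 1, P s t ∈ γ ⁻¹' B := by
    intro s hs t ht
    apply hth
    rw [Metric.mem_thickening_iff]
    refine ⟨t, ⟨t, ht, rfl⟩, ?_⟩
    rw [dist_eq_norm]
    have h1 : P s t - (t : ℂ) = (s * (t * (1 - t)) : ℝ) * Complex.I := by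
      rw [hP]; ring
    rw [h1, norm_mul, Complex.norm_I, mul_one, Complex.norm_real, Real.norm_eq_abs, abs_of_nonneg
      (mul_nonneg hs.1 (mul_nonneg ht.1 (by linarith [ht.2])))]
    have h2 : t * (1 - t) ≤ 1 := by nlinarith [ht.1, ht.2]
    have h3 : 0 ≤ t * (1 - t) := mul_nonneg ht.1 (by linarith [ht.2])
    nlinarith [hs.1, hs.2]
  have hPc : Continuous fun z : ℝ × ℝ => P z.1 z.2 := by
    rw [hP]
    fun_prop
  set K : Set ℂ := (fun z : ℝ × ℝ => P z.1 z.2) '' (Icc (0 : ℝ) (δ / 2) ×ˢ Icc (0 : ℝ) 1) with hK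
  have hKc : IsCompact K := (isCompact_Icc.prod isCompact_Icc).image hPc
  have hKp : IsPreconnected K :=
    (isPreconnected_Icc.prod isPreconnected_Icc).image _ hPc.continuousOn
  have hKD : K ⊆ γ ⁻¹' B := by
    rintro _ ⟨⟨s, t⟩, ⟨hs, ht⟩, rfl⟩
    exact hPD s hs t ht
  have h0K : (0 : ℂ) ∈ K := ⟨(0, 0), ⟨⟨le_rfl, by positivity⟩, ⟨le_rfl, zero_le_one⟩⟩, by
    simp [hP]⟩
  have ha : AnalyticOnNhd ℂ (b ∘ γ) K := fun ζ hζ =>
    AnalyticAt.comp (g := b) (f := γ) (hb _ (hKD hζ)) (hγa ζ)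
  have h0 : (b ∘ γ) 0 ≠ 0 := by simpa [hγ] using hx
  have h1 : (b ∘ γ) 1 ≠ 0 := by simpa [hγ] using hy
  have hfin : (K ∩ {ζ | (b ∘ γ) ζ = 0}).Finite := by
    by_contra hinf
    obtain ⟨z, hz, hacc⟩ := Set.Infinite.exists_accPt_of_subset_isCompact hinf hKc
      inter_subset_left
    rw [accPt_iff_frequently_nhdsNE] at hacc
    rcases (ha z hz).eventually_eq_zero_or_eventually_ne_zero with h | h
    · exact h0 (ha.eqOn_zero_of_preconnected_of_eventuallyEq_zero hKp hz h h0K)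
    · exact hacc (h.mono fun w hw hw' => hw hw'.2)
  have hfin2 := hfin.image fun ζ : ℂ => ζ.im / (ζ.re * (1 - ζ.re))
  obtain ⟨s, hs, hsn⟩ := ((Icc_infinite (show (0 : ℝ) < δ / 2 by positivity)).sdiff
    hfin2).nonempty
  refine JoinedIn.ofLine (f := fun t : ℝ => γ (P s t)) ?_ ?_ ?_ ?_
  · have h2 : Continuous fun t : ℝ => P s t := by
      rw [hP]
      fun_prop
    exact (hγc.comp h2).continuousOn
  · simp [hγ, hP]
  · simp [hγ, hP]
  · rintro _ ⟨t, ht, rfl⟩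
    refine ⟨hPD s hs t ht, fun hz => hsn ⟨P s t, ⟨⟨(s, t), ⟨hs, ht⟩, rfl⟩, hz⟩, ?_⟩⟩
    have hre : (P s t).re = t := by simp [hP]
    have him : (P s t).im = s * (t * (1 - t)) := by simp [hP]
    have ht0 : t ≠ 0 := by
      rintro rfl
      apply h0
      have h2 : P s 0 = 0 := by simp [hP]
      have h3 : (b ∘ γ) (P s 0) = 0 := hz
      rwa [h2] at h3
    have ht1 : 1 - t ≠ 0 := by
      intro h
      have h2 : t = 1 := by linarith
      subst h2
      apply h1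
      have h2 : P s 1 = 1 := by simp [hP]
      have h3 : (b ∘ γ) (P s 1) = 0 := hz
      rwa [h2] at h3
    show (P s t).im / ((P s t).re * (1 - (P s t).re)) = s
    rw [hre, him]
    field_simp

/-- The complement of the zero set of an analytic function in a ball is preconnected. -/
theorem preconn_ball_compl {b : E → ℂ} {p : E} {r : ℝ}
    (hb : AnalyticOnNhd ℂ b (Metric.ball p r)) :
    IsPreconnected {z | z ∈ Metric.ball p r ∧ b z ≠ 0} := by
  let _ : NormedSpace ℝ E := NormedSpace.restrictScalars ℝ ℂ E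
  refine isPreconnected_of_forall_pair ?_
  intro x hx y hy
  have h1 : JoinedIn {z | z ∈ Metric.ball p r ∧ b z ≠ 0} x y := by
    refine joined Metric.isOpen_ball hb hx.2 hy.2 ?_
    intro t ht
    have h2 : x + (t : ℂ) • (y - x) = (1 - t) • x + t • y := by
      have e1 : (t : ℂ) • (y - x) = t • (y - x) := rfl
      rw [e1, smul_sub, sub_smul, one_smul]
      abel
    rw [h2]
    exact convex_ball p r hx.1 hy.1 (by linarith [ht.2]) ht.1 (by ring)
  obtain ⟨γ, hγ⟩ := h1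
  refine ⟨Set.range γ, ?_, ⟨0, γ.source⟩, ⟨1, γ.target⟩, isPreconnected_range γ.continuous⟩
  rintro _ ⟨t, rfl⟩
  exact hγ t

/-- The complement of the zero set of a non-zero analytic function in a preconnected open set is
preconnected. -/
theorem conn_compl {b : E → ℂ} {U : Set E} (hUo : IsOpen U) (hU : IsPreconnected U)
    (hb : AnalyticOnNhd ℂ b U) (hne : ∃ x ∈ U, b x ≠ 0) :
    IsPreconnected {z | z ∈ U ∧ b z ≠ 0} := by
  refine preconn_of_local hU (fun z hz => hz.1) (subset_closure hb hUo hU hne) ?_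
  intro p hp
  obtain ⟨r, hr, hrU⟩ := Metric.isOpen_iff.1 hUo p hp
  refine ⟨Metric.ball p r, Metric.isOpen_ball, Metric.mem_ball_self hr, ?_⟩
  have h1 : Metric.ball p r ∩ {z | z ∈ U ∧ b z ≠ 0} = {z | z ∈ Metric.ball p r ∧ b z ≠ 0} := by
    ext z
    simp only [mem_inter_iff, mem_ofPred_eq]
    constructor
    · rintro ⟨h1, -, h2⟩
      exact ⟨h1, h2⟩
    · rintro ⟨h1, h2⟩
      exact ⟨h1, hrU h1, h2⟩
  rw [h1]
  exact preconn_ball_compl (hb.mono hrU)

end Pool.Agent.KO.C
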