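import Pool.Agent.KO.C.Osgood

/-!
# Hartogs: extension across `{x i = p i, x j = p j}`
-/

open MeasureTheory Set Metric Filter Topology Function
open scoped Real

namespace Pool.Agent.KO.C

/-- The complement of a coordinate hyperplane is dense. -/
theorem frequently_coord_ne {n : ℕ} (j : Fin n) (a : ℂ) (z : Fin n → ℂ) :
    ∃ᶠ y in 𝓝 z, y j ≠ a := by
  intro h
  have hc : Tendsto (fun t : ℂ => update z j t) (𝓝 (z j)) (𝓝 z) := by
    have h1 : Continuous (fun t : ℂ => update z j t) := by fun_prop
    have h2 := h1.tendsto (z j)
    simpa using h2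
  have h3 : ∀ᶠ t in 𝓝 (z j), t = a := by
    filter_upwards [hc.eventually h] with t ht
    simpa using ht
  have h4 : z j = a := h3.self_of_nhds
  have h5 : ∀ᶠ t in 𝓝[≠] (z j), t = a := h3.filter_mono nhdsWithin_le_nhds
  have h6 : ∀ᶠ t in 𝓝[≠] (z j), t ≠ z j := eventually_mem_nhdsWithin
  obtain ⟨t, ht, ht'⟩ := (h5.and h6).exists
  exact ht' (ht.trans h4.symm)

/-- **Hartogs**: a function which is analytic near `p` outside of `{x i = p i, x j = p j}`
extends to an analytic function near `p`. -/
theorem hartogs {F : Type*} [NormedAddCommGroup F] [NormedSpace ℂ F] [CompleteSpace F]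
    {n : ℕ} {i j : Fin n} (hij : i ≠ j) {f : (Fin n → ℂ) → F} {p : Fin n → ℂ}
    (hf : ∀ᶠ x in 𝓝 p, (x i ≠ p i ∨ x j ≠ p j) → AnalyticAt ℂ f x) :
    ∃ g, AnalyticAt ℂ g p ∧ ∀ᶠ x in 𝓝 p, (x i ≠ p i ∨ x j ≠ p j) → g x = f x := by
  obtain ⟨m, rfl⟩ : ∃ m, n = m + 1 := ⟨n - 1, by have := i.pos; omega⟩
  obtain ⟨ε, hε, hS⟩ := Metric.eventually_nhds_iff_ball.1 hf
  set r : ℝ := ε / 2 with hrdef
  have hr : 0 < r := by positivity
  have hrS : closedBall p r ⊆ ball p ε := closedBall_subset_ball (by rw [hrdef]; linarith)
  have hcont : ContinuousOn f {ζ | ∀ k, ζ k ∈ sphere (p k) r} := by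
    intro ζ hζ
    apply ContinuousAt.continuousWithinAt
    apply AnalyticAt.continuousAt (𝕜 := ℂ)
    apply hS
    · apply hrS
      rw [mem_closedBall, dist_pi_le_iff hr.le]
      intro k
      exact (mem_sphere.1 (hζ k)).le
    · left
      intro h0
      have h1 := hζ i
      rw [h0, mem_sphere, dist_self] at h1
      exact hr.ne h1
  let g : (Fin (m + 1) → ℂ) → F := fun z => ((2 * π * Complex.I : ℂ) ^ (m + 1))⁻¹ •
    ∯ ζ in T(p, fun _ => r), (∏ k, (ζ k - z k)⁻¹) • f ζ
  have hg : ∀ z ∈ ball p r, AnalyticAt ℂ g z := fun z hz => (torus_analytic hr hcont hz).const_smul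
  have hpi : ((2 * π * Complex.I : ℂ)) ≠ 0 := by simp [Real.pi_ne_zero]
  have key : ∀ z ∈ ball p r, z j ≠ p j → g z = f z := by
    intro z hz hzj
    have hz' : ∀ k, z k ∈ ball (p k) r := by
      intro k
      rw [mem_ball, dist_pi_lt_iff hr] at hz
      exact hz k
    have hint : TorusIntegrable (fun ζ => (∏ k, (ζ k - z k)⁻¹) • f ζ) p (fun _ => r) := by
      apply torusIntegrable_of_continuousOn hr
      apply ContinuousOn.smul _ hcont
      apply continuousOn_finsetProd
      intro k _
      apply ContinuousOn.inv₀
      · fun_prop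
      · intro ζ hζ h0
        have h1 := hζ k
        have h2 := hz' k
        rw [mem_sphere] at h1
        rw [mem_ball] at h2
        rw [sub_eq_zero] at h0
        rw [h0] at h1
        exact (ne_of_lt h2) h1
    have hmem : ∀ (x : ℂ) (y : Fin m → ℂ), x ∈ closedBall (p i) r →
        y ∈ closedBall (p ∘ i.succAbove) r → (i.insertNth x y : Fin (m + 1) → ℂ) ∈ ball p ε := by
      intro x y hx hy
      apply hrS
      rw [mem_closedBall, dist_pi_le_iff hr.le]
      rw [mem_closedBall, dist_pi_le_iff hr.le] at hy
      intro k
      refine Fin.succAboveCases i ?_ ?_ k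
      · simpa using hx
      · intro l
        simpa using hy l
    have step : ∀ x ∈ sphere (p i) r,
        (∯ y in T(p ∘ i.succAbove, (fun _ : Fin (m + 1) => r) ∘ i.succAbove),
          (∏ k, ((i.insertNth x y : Fin (m + 1) → ℂ) k - z k)⁻¹) • f (i.insertNth x y)) =
        ((2 * π * Complex.I : ℂ) ^ m) • ((x - z i)⁻¹ • f (update z i x)) := by
      intro x hx
      have hxi : x ≠ p i := by
        rintro rfl
        rw [mem_sphere, dist_self] at hx
        exact hr.ne hx
      have h1 : ∀ y : Fin m → ℂ,
          (∏ k, ((i.insertNth x y : Fin (m + 1) → ℂ) k - z k)⁻¹) • f (i.insertNth x y)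
          = (x - z i)⁻¹ • ((∏ k, (y k - (z ∘ i.succAbove) k)⁻¹) • f (i.insertNth x y)) := by
        intro y
        rw [Fin.prod_univ_succAbove _ i, smul_smul]
        simp
      simp only [h1]
      rw [torusIntegral_smul]
      have h3 : ((fun _ : Fin (m + 1) => r) ∘ i.succAbove) = (fun _ : Fin m => r) := rfl
      have hcont' : Continuous (fun y : Fin m → ℂ => (i.insertNth x y : Fin (m + 1) → ℂ)) := by
        rw [continuous_pi_iff]
        intro k
        refine Fin.succAboveCases i ?_ ?_ k
        · simp only [Fin.insertNth_apply_same]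
          exact continuous_const
        · intro l
          simp only [Fin.insertNth_apply_succAbove]
          fun_prop
      have h2 := cauchy_torus m (fun y => f (i.insertNth x y))
        {y | (i.insertNth x y : Fin (m + 1) → ℂ) ∈ ball p ε} (p ∘ i.succAbove) (z ∘ i.succAbove)
        r hr
        (by
          intro y hy
          have h5 : AnalyticAt ℂ f (i.insertNth x y) := hS _ hy (by left; simpa using hxi)
          apply DifferentiableAt.differentiableWithinAt
          apply DifferentiableAt.comp y
            (f := fun y : Fin m → ℂ => (i.insertNth x y : Fin (m + 1) → ℂ)) h5.differentiableAt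
          rw [differentiableAt_pi]
          intro k
          refine Fin.succAboveCases i ?_ ?_ k
          · simp
          · intro l
            simp only [Fin.insertNth_apply_succAbove]
            fun_prop)
        (isOpen_ball.preimage hcont')
        (fun y hy => hmem x y (sphere_subset_closedBall hx) hy)
        (by
          rw [mem_ball, dist_pi_lt_iff hr]
          intro l
          exact hz' (i.succAbove l))
      have h6 : (i.insertNth x (z ∘ i.succAbove) : Fin (m + 1) → ℂ) = update z i x := by
        have := Fin.insertNth_removeNth i x z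
        exact this
      rw [h3, h2, smul_comm, h6]
    have hd : DifferentiableOn ℂ (fun x : ℂ => f (update z i x)) (closedBall (p i) r) := by
      intro x hx
      have h7 : update z i x ∈ ball p ε := by
        have := hmem x (z ∘ i.succAbove) hx (by
          rw [mem_closedBall, dist_pi_le_iff hr.le]
          intro l
          exact (mem_ball.1 (hz' (i.succAbove l))).le)
        have h6 : (i.insertNth x (z ∘ i.succAbove) : Fin (m + 1) → ℂ) = update z i x :=
          Fin.insertNth_removeNth i x z
        rwa [h6] at this
      have h5 : AnalyticAt ℂ f (update z i x) := hS _ h7 (by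
        right
        rw [update_of_ne hij.symm]
        exact hzj)
      apply DifferentiableAt.differentiableWithinAt
      apply DifferentiableAt.comp x (f := fun x : ℂ => update z i x) h5.differentiableAt
      rw [differentiableAt_pi]
      intro k
      by_cases hk : k = i
      · subst hk
        simp
      · simp [update_of_ne hk]
    simp only [g]
    rw [torusIntegral_succAbove hint i, circleIntegral.integral_congr hr.le step,
      circleIntegral.integral_smul, hd.circleIntegral_sub_inv_smul (hz' i), smul_smul, smul_smul,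
      update_eq_self, pow_succ]
    have : ((2 * π * Complex.I : ℂ) ^ m * (2 * π * Complex.I))⁻¹ * (2 * π * Complex.I) ^ m *
        (2 * π * Complex.I) = 1 := by
      have h8 := pow_ne_zero m hpi
      rw [mul_assoc]
      exact inv_mul_cancel₀ (mul_ne_zero h8 hpi)
    first
      | rw [← mul_assoc, this, one_smul]
      | rw [this, one_smul]
  refine ⟨g, hg p (mem_ball_self hr), ?_⟩
  filter_upwards [ball_mem_nhds p hr] with z hz hzz
  have hcf : Tendsto f (𝓝 z) (𝓝 (f z)) :=
    (hS z (hrS (ball_subset_closedBall hz)) hzz).continuousAt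
  have hcg : Tendsto g (𝓝 z) (𝓝 (g z)) := (hg z hz).continuousAt
  refine tendsto_nhds_unique_of_frequently_eq hcg hcf ?_
  have h9 := (frequently_coord_ne j (p j) z).and_eventually (isOpen_ball.mem_nhds hz)
  exact h9.mono fun y hy => key y hy.2 hy.1

end Pool.Agent.KO.C
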